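import Pool.Agent.MP_ca1109_lc.Wd.Test2

/-!
# Several programs of any width which read the bits in two orders: the class
-/

namespace Pool.Agent.MP_ca1109_lc.Wd

/-- The functions `g i` are computed by programs with any numbers of states which read the same
different bits `π 0, π 1, ..., π (q - 1)` in this order, one bit per step, such that for each program
and every `K` consecutive steps there are values of their `K` bits which lead the program to one of
two states, from any state. -/
def LProg (K k : ℕ) {n : ℕ} (g : Fin k → (Fin n → Bool) → Bool) : Prop :=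
  ∃ (Q : Fin k → Type) (q : ℕ) (π : ℕ → Fin n) (τ : (i : Fin k) → ℕ → Bool → Q i → Q i)
    (s : (i : Fin k) → Q i) (A : (i : Fin k) → Set (Q i)),
    (∀ t < q, ∀ t' < q, π t = π t' → t = t') ∧
    (∀ i a, a + K ≤ q → ∃ (y : ℕ → Bool) (u v : Q i), ∀ s,
      steps (τ i) y a K s = u ∨ steps (τ i) y a K s = v) ∧
    ∀ i x, g i x = true ↔ steps (τ i) (fun t => x (π t)) 0 q (s i) ∈ A i

/-- Boolean functions of `k` programs which read the bits in one order and `k` programs which read
the bits in another order. -/
def LTest (K k : ℕ) {n : ℕ} (T : (Fin n → Bool) → Bool) : Prop :=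
  ∃ (g₁ g₂ : Fin k → (Fin n → Bool) → Bool) (F : (Fin k → Bool) → (Fin k → Bool) → Bool),
    LProg K k g₁ ∧ LProg K k g₂ ∧ ∀ x, T x = F (fun i => g₁ i x) fun i => g₂ i x

end Pool.Agent.MP_ca1109_lc.Wd
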