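import Pool.Agent.MP_ca1109_lc.Ovr.AW

/-!
# Programs of any width in which every step can collapse the states: definitions for the proof

* `fix S z x`: the bits in `S` are those of `z`, the other ones those of `x`.
* `sel η a b`: the bit `i` is `a i` if `η i`, and `b i` otherwise.
* `Red P m M f`: there are at most `M` windows (sets of at least `m` bits with a value for each bit)
  such that `f` is in `P` whenever the bits in a set `S` are fixed in such a way that every window
  contains a bit in `S` with this value.
-/

namespace Pool.Agent.MP_ca1109_lc.Wd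

open Finset Pool.Agent.MP_ca1109_lc.Ov Pool.Agent.MP_ca1109_lc.Ovr

variable {n : ℕ}

/-- The bits in `S` are those of `z`, the other ones those of `x`. -/
def fix (S : Finset (Fin n)) (z x : Fin n → Bool) : Fin n → Bool := fun i => if i ∈ S then z i else x i

/-- The bit `i` is `a i` if `η i`, and `b i` otherwise. -/
def sel (η a b : Fin n → Bool) : Fin n → Bool := fun i => if η i = true then a i else b i

/-- Windows. -/
def Red (P : ((Fin n → Bool) → Bool) → Prop) (m M : ℕ) (f : (Fin n → Bool) → Bool) : Prop :=
  ∃ J : Finset (Finset (Fin n) × (Fin n → Bool)), J.card ≤ M ∧ (∀ w ∈ J, m ≤ w.1.card) ∧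
    ∀ (S : Finset (Fin n)) (z : Fin n → Bool), (∀ w ∈ J, ∃ i ∈ w.1, i ∈ S ∧ z i = w.2 i) →
      P fun x => f (fix S z x)

/-- Closed under fixing bits. -/
def FixC (P : ((Fin n → Bool) → Bool) → Prop) : Prop :=
  ∀ f, P f → ∀ (S : Finset (Fin n)) (z : Fin n → Bool), P fun x => f (fix S z x)

/-- Contains the Boolean functions of two programs with two states over blocks with at most `log N`
bits, each bit in at most two blocks. -/
def Has2 (N : ℕ) (P : ((Fin n → Bool) → Bool) → Prop) : Prop :=
  ∀ (I : Fin (n + 1) → Finset (Fin n)) (τ₁ τ₂ : Fin (n + 1) → (Fin n → Bool) → Bool → Bool)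
    (F : Bool → Bool → Bool) (f : (Fin n → Bool) → Bool),
    (∀ j, 2 ^ (I j).card ≤ N) → (∀ i, (univ.filter fun j => i ∈ I j).card ≤ 2) →
    OnBlocks I τ₁ → OnBlocks I τ₂ →
    (∀ x, f x = F (run (Equiv.refl _) τ₁ false x) (run (Equiv.refl _) τ₂ false x)) → P f

end Pool.Agent.MP_ca1109_lc.Wd
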