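import Pool.Agent.MP_ca1109_lc.Agp.G1
import Pool.Agent.MP_ca1109_lc.Wd.Defs

/-!
# Selecting the bits of two strings by a third one: the generator
-/

namespace Pool.Agent.MP_ca1109_lc.Wd

open Finset Pool.Agent.H66 Pool.Agent.MP_ca1109_lc.Mpg Pool.Agent.MP_ca1109_lc.Agp

/-- Three copies of `G`; the first one selects the bits of the other two. -/
def wgG (E : ℕ → ℕ) (G : ℕ → ℕ → ℕ → Bool) (n p i : ℕ) : Bool :=
  if G n (p / 2 ^ E n / 2 ^ E n) i = true then G n (p / 2 ^ E n % 2 ^ E n) i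
  else G n (p % 2 ^ E n) i

theorem wg_ng {E : ℕ → ℕ} {G : ℕ → ℕ → ℕ → Bool} (h : NG E G) :
    NG (fun n => E n + E n + E n) (wgG E G) := by
  have hn : PolyTime fun q : ℕ × (ℕ × ℕ) => q.1 := PolyTime.fst
  have hp : PolyTime fun q : ℕ × (ℕ × ℕ) => q.2.1 := PolyTime.fst.comp PolyTime.snd
  have hi : PolyTime fun q : ℕ × (ℕ × ℕ) => q.2.2 := PolyTime.snd.comp PolyTime.snd
  have hM : PolyTime fun q : ℕ × (ℕ × ℕ) => 2 ^ E q.1 := h.poly_M.comp PolyTime.fst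
  refine ⟨PolyTime.add (PolyTime.add h.poly_E h.poly_E) h.poly_E, ?_, ?_, ?_⟩
  · exact (PolyTime.mul (PolyTime.mul h.poly_M h.poly_M) h.poly_M).of_eq fun n => by
      rw [pow_add, pow_add]
  · obtain ⟨c, hc⟩ := pb_mul (pb_mul h.bound h.bound) h.bound
    refine ⟨c, fun n => ?_⟩
    show 2 ^ (E n + E n + E n) ≤ _
    rw [pow_add, pow_add]
    exact hc n
  · refine (PolyTime.ite (polyTime_out h hn (d3_div (d3_div hp hM) hM) hi)
      (polyTime_out h hn (d3_mod (d3_div hp hM) hM) hi)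
      (polyTime_out h hn (d3_mod hp hM) hi)).of_eq fun q => ?_
    unfold wgG
    rfl

theorem wg_out (E : ℕ → ℕ) (G : ℕ → ℕ → ℕ → Bool) (n p : ℕ) :
    out (wgG E G) n p = sel (out G n (p / 2 ^ E n / 2 ^ E n)) (out G n (p / 2 ^ E n % 2 ^ E n))
      (out G n (p % 2 ^ E n)) := rfl

theorem wg_avg (E : ℕ → ℕ) (G : ℕ → ℕ → ℕ → Bool) (n : ℕ) (F : (Fin n → Bool) → ℝ) :
    (avg fun p : Fin (2 ^ (E n + E n + E n)) => F (out (wgG E G) n p)) =
      avg fun q : Fin (2 ^ E n) × Fin (2 ^ E n) × Fin (2 ^ E n) =>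
        F (sel (out G n q.1) (out G n q.2.1) (out G n q.2.2)) := by
  have hM : 2 ^ (E n + E n + E n) = 2 ^ E n * 2 ^ E n * 2 ^ E n := by rw [pow_add, pow_add]
  let e : Fin (2 ^ (E n + E n + E n)) ≃ Fin (2 ^ E n) × Fin (2 ^ E n) × Fin (2 ^ E n) :=
    ((finCongr hM).trans finProdFinEquiv.symm).trans
      ((Equiv.prodCongr finProdFinEquiv.symm (Equiv.refl _)).trans (Equiv.prodAssoc _ _ _))
  rw [← avg_equiv e]
  rfl

theorem wg {E : ℕ → ℕ} {G : ℕ → ℕ → ℕ → Bool} (h : NG E G) :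
    ∃ (E' : ℕ → ℕ) (G' : ℕ → ℕ → ℕ → Bool), NG E' G' ∧ ∀ (n : ℕ) (F : (Fin n → Bool) → ℝ),
      (avg fun p : Fin (2 ^ E' n) => F (out G' n p)) =
        avg fun q : Fin (2 ^ E n) × Fin (2 ^ E n) × Fin (2 ^ E n) =>
          F (sel (out G n q.1) (out G n q.2.1) (out G n q.2.2)) :=
  ⟨_, _, wg_ng h, wg_avg E G⟩

end Pool.Agent.MP_ca1109_lc.Wd
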