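import Mathlib

/-!
# Programs of any width in which few consecutive steps can lead to two states: the class
-/

namespace Pool.Agent.MP_ca1109_lc.Wd

/-- The state after `k` steps which begin with the step `a` in the state `s`. At the step `t` the
state `s` becomes `τ t (y t) s`. -/
def steps {Q : Type} (τ : ℕ → Bool → Q → Q) (y : ℕ → Bool) (a : ℕ) : ℕ → Q → Q
  | 0, s => s
  | k + 1, s => τ (a + k) (y (a + k)) (steps τ y a k s)

/-- `g` is computed by a program with any number of states which reads the different bits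
`π 0, π 1, ..., π (q - 1)` in this order, one bit per step, such that for every `K` consecutive steps
there are values of their `K` bits which lead to one of two states, from any state. -/
def KProg (K : ℕ) {n : ℕ} (g : (Fin n → Bool) → Bool) : Prop :=
  ∃ (Q : Type) (q : ℕ) (π : ℕ → Fin n) (τ : ℕ → Bool → Q → Q) (s : Q) (A : Set Q),
    (∀ t < q, ∀ t' < q, π t = π t' → t = t') ∧
    (∀ a, a + K ≤ q → ∃ (y : ℕ → Bool) (u v : Q), ∀ s,
      steps τ y a K s = u ∨ steps τ y a K s = v) ∧
    ∀ x, g x = true ↔ steps τ (fun t => x (π t)) 0 q s ∈ A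

/-- Boolean functions of two programs. -/
def KTest (K : ℕ) {n : ℕ} (T : (Fin n → Bool) → Bool) : Prop :=
  ∃ (g₁ g₂ : (Fin n → Bool) → Bool) (F : Bool → Bool → Bool),
    KProg K g₁ ∧ KProg K g₂ ∧ ∀ x, T x = F (g₁ x) (g₂ x)

end Pool.Agent.MP_ca1109_lc.Wd
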