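import Pool.Agent.MP_ca1109_lc.Wd.Defs
import Pool.Agent.MP_ca1109_lc.Wd.Test2

/-!
# Windows of groups of bits
-/

namespace Pool.Agent.MP_ca1109_lc.Wd

open Finset

variable {n : ℕ}

/-- There are at most `M` windows (at least `m` disjoint groups of at most `K` bits, with a value for
each bit) such that `f` is in `P` whenever the bits in a set `S` are fixed in such a way that every
window contains a group of bits in `S` with these values. -/
def RedG (P : ((Fin n → Bool) → Bool) → Prop) (K m M : ℕ) (f : (Fin n → Bool) → Bool) : Prop :=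
  ∃ J : Finset (Finset (Finset (Fin n)) × (Fin n → Bool)), J.card ≤ M ∧
    (∀ w ∈ J, m ≤ w.1.card ∧ (∀ G ∈ w.1, G.card ≤ K) ∧
      (w.1 : Set (Finset (Fin n))).PairwiseDisjoint id) ∧
    ∀ (S : Finset (Fin n)) (z : Fin n → Bool),
      (∀ w ∈ J, ∃ G ∈ w.1, ∀ i ∈ G, i ∈ S ∧ z i = w.2 i) → P fun x => f (fix S z x)

end Pool.Agent.MP_ca1109_lc.Wd
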