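import Pool.Agent.MP_ca1109_lc.Wd.WH
import Pool.Agent.MP_ca1109_lc.Wd.Defs2
import Pool.Agent.MP_ca1109_lc.Ov.ME

/-!
# Row WH2: windows of groups of bits
-/

namespace Pool.Agent.MP_ca1109_lc.Wd

open Finset Pool.Agent.H66 Pool.Agent.MP_ca1109_lc.Mpg Pool.Agent.MP_ca1109_lc.Agp
  Pool.Agent.MP_ca1109_lc.Xp Pool.Agent.MP_ca1109_lc.Ov Pool.Agent.MP_ca1109_lc.Ovr
open Pool.Agent.MP_ca1109_lc.Dnf (Cube one Term)
open Pool.Agent.MP_ca1109_lc.Rf (pat)

variable {n : ℕ}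

/-- A nonnegative function of few bits. -/
theorem wh2_dep {m₀ : ℕ} {Ω : Type} [Fintype Ω] {X : Ω → Fin n → Bool} (hX : PB m₀ X)
    {U : Finset (Fin n)} (hU : U.card ≤ m₀) {g : (Fin n → Bool) → ℝ} (hg0 : ∀ x, 0 ≤ g x)
    (hg : ∀ x y, (∀ i ∈ U, x i = y i) → g x = g y) : (avg fun ω => g (X ω)) ≤ 2 * avg g := by
  have hp : (0 : ℝ) < (2 : ℝ) ^ U.card := by positivity
  have h2 : (2 : ℝ) ^ U.card * (1 / 2) ^ U.card = 1 := by
    rw [← mul_pow]
    norm_num
  have h1 : ∀ y, g y = avg fun s : Fin n → Bool => (2 : ℝ) ^ U.card * one (pat U s y) * g s := by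
    intro y
    have h3 : (fun s : Fin n → Bool => (2 : ℝ) ^ U.card * one (pat U s y) * g s) =
        fun s => (2 : ℝ) ^ U.card * g y * one (pat U y s) := by
      funext s
      by_cases h : pat U s y
      · rw [hg s y fun i hi => (h i hi).symm, Dnf.one_true h,
          Dnf.one_true (show pat U y s from fun i hi => (h i hi).symm)]
        ring
      · rw [Dnf.one_false h, Dnf.one_false fun h' => h fun i hi => (h' i hi).symm]
        ring
    have h4 : (avg fun s : Fin n → Bool => one (pat U y s)) = (1 / 2) ^ U.card := aw_pat U y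
    rw [h3, avg_mul_left, h4, mul_right_comm, h2, one_mul]
  calc (avg fun ω => g (X ω)) =
      avg fun ω => avg fun s : Fin n → Bool => (2 : ℝ) ^ U.card * one (pat U s (X ω)) * g s := by
        congr 1
        funext ω
        exact h1 (X ω)
    _ = avg fun s : Fin n → Bool => avg fun ω => (2 : ℝ) ^ U.card * one (pat U s (X ω)) * g s :=
        k2_avg_comm _
    _ ≤ avg fun s : Fin n → Bool => 2 * g s := by
        refine avg_mono fun s => ?_
        have h3 : (fun ω => (2 : ℝ) ^ U.card * one (pat U s (X ω)) * g s) =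
            fun ω => ((2 : ℝ) ^ U.card * g s) * one (pat U s (X ω)) := by
          funext ω
          ring
        rw [h3, avg_mul_left]
        calc (2 : ℝ) ^ U.card * g s * (avg fun ω => one (pat U s (X ω)))
            ≤ (2 : ℝ) ^ U.card * g s * (2 * (1 / 2) ^ U.card) :=
              mul_le_mul_of_nonneg_left (hX U s hU) (mul_nonneg hp.le (hg0 s))
          _ = 2 * g s * ((2 : ℝ) ^ U.card * (1 / 2) ^ U.card) := by ring
          _ = 2 * g s := by rw [h2, mul_one]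
    _ = 2 * avg g := avg_mul_left _ _

/-- The probability for uniform strings that one group is chosen and has the values. -/
theorem wh2_one (G : Finset (Fin n)) (v : Fin n → Bool) (β : Bool) :
    (avg fun z : Fin n → Bool × Bool => one (∀ i ∈ G, (z i).1 = β ∧ (z i).2 = v i)) =
      (1 / 4) ^ G.card := by
  have h1 := Pool.Agent.MP_ca1109_lc.avg_equiv
    (Equiv.arrowProdEquivProdArrow (Fin n) (fun _ => Bool) (fun _ => Bool))
    fun p : (Fin n → Bool) × (Fin n → Bool) =>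
      one (pat G (fun _ => β) p.1) * one (pat G v p.2)
  rw [avg_prod_mul (fun s : Fin n → Bool => one (pat G (fun _ => β) s))
    fun t : Fin n → Bool => one (pat G v t)] at h1
  have h2 : (avg fun s : Fin n → Bool => one (pat G (fun _ => β) s)) = (1 / 2) ^ G.card :=
    aw_pat G _
  have h3 : (avg fun t : Fin n → Bool => one (pat G v t)) = (1 / 2) ^ G.card := aw_pat G v
  rw [h2, h3, ← mul_pow] at h1
  have h4 : (1 / 2 * (1 / 2) : ℝ) = 1 / 4 := by norm_num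
  rw [h4] at h1
  rw [← h1]
  congr 1
  funext z
  rw [← Dnf.one_and]
  congr 1
  exact propext ⟨fun h => ⟨fun i hi => (h i hi).1, fun i hi => (h i hi).2⟩,
    fun h i hi => ⟨h.1 i hi, h.2 i hi⟩⟩

/-- The probability that no group is chosen with the values, for uniform strings. -/
theorem wh2_unif (𝒢 : Finset (Finset (Fin n))) {K : ℕ} (hK : ∀ G ∈ 𝒢, G.card ≤ K)
    (hd : (𝒢 : Set (Finset (Fin n))).PairwiseDisjoint id) (v : Fin n → Bool) (β : Bool) :
    (avg fun s : Fin n → Bool => avg fun t : Fin n → Bool =>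
      one (∀ G ∈ 𝒢, ¬ ∀ i ∈ G, s i = β ∧ t i = v i)) ≤ (1 - (1 / 4) ^ K) ^ 𝒢.card := by
  classical
  have h1 := Pool.Agent.MP_ca1109_lc.avg_equiv
    (Equiv.arrowProdEquivProdArrow (Fin n) (fun _ => Bool) (fun _ => Bool))
    fun p : (Fin n → Bool) × (Fin n → Bool) =>
      one (∀ G ∈ 𝒢, ¬ ∀ i ∈ G, p.1 i = β ∧ p.2 i = v i)
  rw [avg_prod fun (s : Fin n → Bool) (t : Fin n → Bool) =>
    one (∀ G ∈ 𝒢, ¬ ∀ i ∈ G, s i = β ∧ t i = v i)] at h1
  rw [← h1]
  have h2 : (fun z : Fin n → Bool × Bool => one (∀ G ∈ 𝒢, ¬ ∀ i ∈ G,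
      (Equiv.arrowProdEquivProdArrow (Fin n) (fun _ => Bool) (fun _ => Bool) z).1 i = β ∧
      (Equiv.arrowProdEquivProdArrow (Fin n) (fun _ => Bool) (fun _ => Bool) z).2 i = v i)) =
      fun z => ∏ G ∈ 𝒢, (1 - one (∀ i ∈ G, (z i).1 = β ∧ (z i).2 = v i)) := by
    funext z
    show one (∀ G ∈ 𝒢, ¬ ∀ i ∈ G, (z i).1 = β ∧ (z i).2 = v i) = _
    by_cases h : ∀ G ∈ 𝒢, ¬ ∀ i ∈ G, (z i).1 = β ∧ (z i).2 = v i
    · rw [Dnf.one_true h]
      symm
      refine prod_eq_one fun G hG => ?_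
      rw [Dnf.one_false (h G hG), sub_zero]
    · have h3 := h
      push Not at h
      obtain ⟨G, hG, h⟩ := h
      rw [Dnf.one_false h3]
      symm
      refine prod_eq_zero hG ?_
      rw [Dnf.one_true h, sub_self]
  rw [h2, avg_indep 𝒢 id (fun G hG G' hG' hne => hd hG hG' hne)
    (fun G (z : Fin n → Bool × Bool) => 1 - one (∀ i ∈ G, (z i).1 = β ∧ (z i).2 = v i))
    fun G _ x y hxy => by
      have h3 : (∀ i ∈ G, (x i).1 = β ∧ (x i).2 = v i) ↔ ∀ i ∈ G, (y i).1 = β ∧ (y i).2 = v i :=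
        forall₂_congr fun i hi => by rw [hxy i hi]
      show (1 : ℝ) - one _ = 1 - one _
      rw [propext h3]]
  refine (prod_le_prod (fun G _ => ?_) fun G hG => ?_).trans_eq (prod_const _)
  · rw [avg_sub (fun _ => (1 : ℝ)), avg_const, wh2_one, sub_nonneg]
    exact pow_le_one₀ (by norm_num) (by norm_num)
  · rw [avg_sub (fun _ => (1 : ℝ)), avg_const, wh2_one]
    have h3 : (1 / 4 : ℝ) ^ K ≤ (1 / 4) ^ G.card :=
      pow_le_pow_of_le_one (by norm_num) (by norm_num) (hK G hG)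
    linarith

/-- The probability that no group of the window is chosen with the values. -/
theorem wh2_bad {Ω₁ Ω₂ : Type} [Fintype Ω₁] [Fintype Ω₂] {m₀ K m : ℕ} {H : Ω₁ → Fin n → Bool}
    {A : Ω₂ → Fin n → Bool} (hH : PB m₀ H) (hA : PB m₀ A) {𝒢 : Finset (Finset (Fin n))}
    (hm : 𝒢.card = m) (hK : ∀ G ∈ 𝒢, G.card ≤ K) (hKm : K * m ≤ m₀)
    (hd : (𝒢 : Set (Finset (Fin n))).PairwiseDisjoint id) (v : Fin n → Bool) (β : Bool) :
    (avg fun p : Ω₁ × Ω₂ => one (∀ G ∈ 𝒢, ¬ ∀ i ∈ G, H p.1 i = β ∧ A p.2 i = v i)) ≤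
      4 * (1 - (1 / 4) ^ K) ^ m := by
  classical
  obtain ⟨U, hU⟩ : ∃ U, U = 𝒢.biUnion id := ⟨_, rfl⟩
  have hUc : U.card ≤ m₀ := by
    rw [hU]
    refine card_biUnion_le.trans ((sum_le_card_nsmul _ _ K fun G hG => hK G hG).trans ?_)
    rw [hm, smul_eq_mul, mul_comm]
    exact hKm
  have hmem : ∀ G ∈ 𝒢, ∀ i ∈ G, i ∈ U := fun G hG i hi => by
    rw [hU]
    exact mem_biUnion.2 ⟨G, hG, hi⟩
  rw [avg_prod fun h z => one (∀ G ∈ 𝒢, ¬ ∀ i ∈ G, H h i = β ∧ A z i = v i)]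
  have h1 : ∀ s : Fin n → Bool,
      (avg fun z => one (∀ G ∈ 𝒢, ¬ ∀ i ∈ G, s i = β ∧ A z i = v i)) ≤
      2 * avg fun t : Fin n → Bool => one (∀ G ∈ 𝒢, ¬ ∀ i ∈ G, s i = β ∧ t i = v i) := by
    intro s
    refine wh2_dep hA hUc (g := fun t => one (∀ G ∈ 𝒢, ¬ ∀ i ∈ G, s i = β ∧ t i = v i))
      (fun _ => Dnf.one_nonneg _) fun x y hxy => ?_
    have h2 : (∀ G ∈ 𝒢, ¬ ∀ i ∈ G, s i = β ∧ x i = v i) ↔
        ∀ G ∈ 𝒢, ¬ ∀ i ∈ G, s i = β ∧ y i = v i :=
      forall₂_congr fun G hG => not_congr (forall₂_congr fun i hi => by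
        rw [hxy i (hmem G hG i hi)])
    show one _ = one _
    rw [propext h2]
  have h2 : (avg fun h => avg fun t : Fin n → Bool =>
      one (∀ G ∈ 𝒢, ¬ ∀ i ∈ G, H h i = β ∧ t i = v i)) ≤
      2 * avg fun s : Fin n → Bool => avg fun t : Fin n → Bool =>
        one (∀ G ∈ 𝒢, ¬ ∀ i ∈ G, s i = β ∧ t i = v i) := by
    refine wh2_dep hH hUc (g := fun s => avg fun t : Fin n → Bool =>
      one (∀ G ∈ 𝒢, ¬ ∀ i ∈ G, s i = β ∧ t i = v i))
      (fun _ => avg_nonneg fun _ => Dnf.one_nonneg _) fun x y hxy => ?_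
    show avg _ = avg _
    congr 1
    funext t
    have h2 : (∀ G ∈ 𝒢, ¬ ∀ i ∈ G, x i = β ∧ t i = v i) ↔
        ∀ G ∈ 𝒢, ¬ ∀ i ∈ G, y i = β ∧ t i = v i :=
      forall₂_congr fun G hG => not_congr (forall₂_congr fun i hi => by
        rw [hxy i (hmem G hG i hi)])
    rw [propext h2]
  have h3 := wh2_unif 𝒢 hK hd v β
  rw [hm] at h3
  calc (avg fun h => avg fun z => one (∀ G ∈ 𝒢, ¬ ∀ i ∈ G, H h i = β ∧ A z i = v i))
      ≤ avg fun h => 2 * avg fun t : Fin n → Bool =>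
        one (∀ G ∈ 𝒢, ¬ ∀ i ∈ G, H h i = β ∧ t i = v i) := avg_mono fun h => h1 (H h)
    _ = 2 * avg fun h => avg fun t : Fin n → Bool =>
        one (∀ G ∈ 𝒢, ¬ ∀ i ∈ G, H h i = β ∧ t i = v i) := avg_mul_left _ _
    _ ≤ _ := by linarith

/-- One step of the hybrid argument. -/
theorem wh2_step {P : ((Fin n → Bool) → Bool) → Prop} {m₀ K m M : ℕ} {ε₀ : ℝ} (h0 : 0 ≤ ε₀)
    {Ω₁ Ω₂ Ω₃ : Type} [Fintype Ω₁] [Nonempty Ω₁] [Fintype Ω₂] [Nonempty Ω₂] [Fintype Ω₃]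
    [Nonempty Ω₃] {H : Ω₁ → Fin n → Bool}
    {A : Ω₂ → Fin n → Bool} {B : Ω₃ → Fin n → Bool} (hH : PB m₀ H) (hA : PB m₀ A)
    (hB : LWtr P m₀ ε₀ B) {f : (Fin n → Bool) → Bool} (hf : RedG P K m M f) (hm : K * m ≤ m₀)
    (L : Finset (Fin n)) (a : Fin n → Bool) (hL : L.card ≤ m₀) (β : Bool) :
    |(avg fun p : Ω₁ × Ω₂ => avg fun ω => one (pat L a (fix (Sβ β (H p.1)) (A p.2) (B ω))) *
        ind (f (fix (Sβ β (H p.1)) (A p.2) (B ω)))) -
      avg fun p : Ω₁ × Ω₂ => avg fun x : Fin n → Bool =>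
        one (pat L a (fix (Sβ β (H p.1)) (A p.2) x)) * ind (f (fix (Sβ β (H p.1)) (A p.2) x))| ≤
      2 * ε₀ * (1 / 2) ^ L.card + 4 * M * (1 - (1 / 4) ^ K) ^ m := by
  classical
  obtain ⟨J, hJ, hJw, hred⟩ := hf
  -- the subwindows
  have hsub : ∀ u : J, ∃ T ⊆ u.1.1, T.card = m := fun u =>
    exists_subset_card_eq (hJw u.1 u.2).1
  choose T hT1 hT2 using hsub
  have hpt : ∀ p : Ω₁ × Ω₂, |(avg fun ω => one (pat L a (fix (Sβ β (H p.1)) (A p.2) (B ω))) *
        ind (f (fix (Sβ β (H p.1)) (A p.2) (B ω)))) -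
      avg fun x : Fin n → Bool =>
        one (pat L a (fix (Sβ β (H p.1)) (A p.2) x)) * ind (f (fix (Sβ β (H p.1)) (A p.2) x))| ≤
      one (pat (L ∩ Sβ β (H p.1)) a (A p.2)) * (ε₀ * (1 / 2) ^ (L \ Sβ β (H p.1)).card) +
        ∑ u : J, one (∀ G ∈ T u, ¬ ∀ i ∈ G, H p.1 i = β ∧ A p.2 i = u.1.2 i) := by
    intro p
    have hS0 : 0 ≤ ∑ u : J, one (∀ G ∈ T u, ¬ ∀ i ∈ G, H p.1 i = β ∧ A p.2 i = u.1.2 i) :=
      sum_nonneg fun u _ => Dnf.one_nonneg _
    by_cases hg : ∀ u ∈ J, ∃ G ∈ u.1, ∀ i ∈ G, i ∈ Sβ β (H p.1) ∧ A p.2 i = u.2 i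
    · have h1 := hred (Sβ β (H p.1)) (A p.2) hg
      have h2 := (hB (L \ Sβ β (H p.1)) a ((card_le_card sdiff_subset).trans hL)).2 _ h1
      have h3 : ∀ {D : Type} [Fintype D] (Y : D → Fin n → Bool),
          (avg fun d => one (pat L a (fix (Sβ β (H p.1)) (A p.2) (Y d))) *
            ind (f (fix (Sβ β (H p.1)) (A p.2) (Y d)))) =
          one (pat (L ∩ Sβ β (H p.1)) a (A p.2)) * avg fun d =>
            one (pat (L \ Sβ β (H p.1)) a (Y d)) * ind (f (fix (Sβ β (H p.1)) (A p.2) (Y d))) := by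
        intro D _ Y
        rw [← avg_mul_left]
        congr 1
        funext d
        rw [wh_pat, mul_assoc]
      rw [h3 B, h3 fun x : Fin n → Bool => x, ← mul_sub, abs_mul,
        abs_of_nonneg (Dnf.one_nonneg _)]
      have h4 := mul_le_mul_of_nonneg_left h2
        (Dnf.one_nonneg (pat (L ∩ Sβ β (H p.1)) a (A p.2)))
      linarith
    · push Not at hg
      obtain ⟨u, hu, hg⟩ := hg
      have h1 : one (∀ G ∈ T ⟨u, hu⟩, ¬ ∀ i ∈ G, H p.1 i = β ∧ A p.2 i = u.2 i) = 1 := by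
        refine Dnf.one_true fun G hG hcon => ?_
        obtain ⟨i, hi, h2⟩ := hg G (hT1 ⟨u, hu⟩ hG)
        exact h2 (wh_mem.2 (hcon i hi).1) (hcon i hi).2
      have h2 : 1 ≤ ∑ u : J, one (∀ G ∈ T u, ¬ ∀ i ∈ G, H p.1 i = β ∧ A p.2 i = u.1.2 i) := by
        rw [← h1]
        exact single_le_sum (f := fun u : J => one (∀ G ∈ T u, ¬ ∀ i ∈ G, H p.1 i = β ∧
          A p.2 i = u.1.2 i)) (fun u _ => Dnf.one_nonneg _) (mem_univ (⟨u, hu⟩ : J))
      have h3 : ∀ {D : Type} [Fintype D] [Nonempty D] (Y : D → Fin n → Bool),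
          0 ≤ (avg fun d => one (pat L a (Y d)) * ind (f (Y d))) ∧
          (avg fun d => one (pat L a (Y d)) * ind (f (Y d))) ≤ 1 := by
        intro D _ _ Y
        refine ⟨avg_nonneg fun d => mul_nonneg (Dnf.one_nonneg _) (ind_nonneg _),
          avg_le fun d => ?_⟩
        calc one (pat L a (Y d)) * ind (f (Y d)) ≤ 1 * 1 :=
              mul_le_mul (Dnf.one_le _) (ind_le_one _) (ind_nonneg _) (by norm_num)
          _ = 1 := one_mul 1
      have h4 := h3 fun ω => fix (Sβ β (H p.1)) (A p.2) (B ω)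
      have h5 := h3 fun x : Fin n → Bool => fix (Sβ β (H p.1)) (A p.2) x
      have h6 : 0 ≤ one (pat (L ∩ Sβ β (H p.1)) a (A p.2)) *
          (ε₀ * (1 / 2) ^ (L \ Sβ β (H p.1)).card) :=
        mul_nonneg (Dnf.one_nonneg _) (by positivity)
      rw [abs_le]
      constructor <;> linarith [h4.1, h4.2, h5.1, h5.2]
  rw [← avg_sub]
  have habs : ∀ g : Ω₁ × Ω₂ → ℝ, |avg g| ≤ avg fun p => |g p| := by
    intro g
    unfold avg
    rw [abs_div, Nat.abs_cast]
    exact div_le_div_of_nonneg_right (abs_sum_le_sum_abs _ _) (Nat.cast_nonneg _)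
  refine (habs _).trans ((avg_mono hpt).trans ?_)
  rw [avg_add]
  refine add_le_add ?_ ?_
  · rw [avg_prod fun h z => one (pat (L ∩ Sβ β (H h)) a (A z)) *
      (ε₀ * (1 / 2) ^ (L \ Sβ β (H h)).card)]
    refine avg_le fun h => ?_
    have h1 : (avg fun z => one (pat (L ∩ Sβ β (H h)) a (A z)) *
        (ε₀ * (1 / 2) ^ (L \ Sβ β (H h)).card)) =
        (ε₀ * (1 / 2) ^ (L \ Sβ β (H h)).card) *
          avg fun z => one (pat (L ∩ Sβ β (H h)) a (A z)) := by
      rw [← avg_mul_left]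
      congr 1
      funext z
      ring
    rw [h1]
    have h2 := hA (L ∩ Sβ β (H h)) a ((card_le_card inter_subset_left).trans hL)
    have h3 : (L ∩ Sβ β (H h)).card + (L \ Sβ β (H h)).card = L.card :=
      card_inter_add_card_sdiff L (Sβ β (H h))
    calc (ε₀ * (1 / 2) ^ (L \ Sβ β (H h)).card) *
          (avg fun z => one (pat (L ∩ Sβ β (H h)) a (A z)))
        ≤ (ε₀ * (1 / 2) ^ (L \ Sβ β (H h)).card) * (2 * (1 / 2) ^ (L ∩ Sβ β (H h)).card) :=
          mul_le_mul_of_nonneg_left h2 (by positivity)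
      _ = 2 * ε₀ * (1 / 2) ^ L.card := by
          rw [← h3, pow_add]
          ring
  · rw [avg_sum univ fun (u : J) (p : Ω₁ × Ω₂) =>
      one (∀ G ∈ T u, ¬ ∀ i ∈ G, H p.1 i = β ∧ A p.2 i = u.1.2 i)]
    have h1 : ∀ u ∈ (univ : Finset J), (avg fun p : Ω₁ × Ω₂ =>
        one (∀ G ∈ T u, ¬ ∀ i ∈ G, H p.1 i = β ∧ A p.2 i = u.1.2 i)) ≤
        4 * (1 - (1 / 4) ^ K) ^ m := by
      intro u _
      exact wh2_bad hH hA (hT2 u) (fun G hG => (hJw u.1 u.2).2.1 G (hT1 u hG)) hm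
        (fun G hG G' hG' hne => (hJw u.1 u.2).2.2 (hT1 u hG) (hT1 u hG') hne) u.1.2 β
    refine (sum_le_card_nsmul _ _ _ h1).trans ?_
    rw [card_univ, Fintype.card_coe, nsmul_eq_mul]
    have h2 : (J.card : ℝ) ≤ M := by exact_mod_cast hJ
    have h3 : (0 : ℝ) ≤ 1 - (1 / 4) ^ K := sub_nonneg.2 (pow_le_one₀ (by norm_num) (by norm_num))
    calc (J.card : ℝ) * (4 * (1 - (1 / 4) ^ K) ^ m) ≤ (M : ℝ) * (4 * (1 - (1 / 4) ^ K) ^ m) :=
          mul_le_mul_of_nonneg_right h2 (mul_nonneg (by norm_num) (pow_nonneg h3 m))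
      _ = _ := by ring

/-- **Row WH2.** -/
theorem wh2_hyb {P : ((Fin n → Bool) → Bool) → Prop} {m₀ K m M : ℕ} {ε₀ : ℝ} (h0 : 0 ≤ ε₀)
    (h1 : ε₀ ≤ 1) {Ω : Type} [Fintype Ω] [Nonempty Ω] {X : Ω → Fin n → Bool} (hX : LWtr P m₀ ε₀ X)
    {f : (Fin n → Bool) → Bool} (hf : RedG P K m M f) (hm : K * m ≤ m₀) (L : Finset (Fin n))
    (a : Fin n → Bool) (hL : L.card ≤ m₀) :
    |(avg fun q : Ω × Ω × Ω => one (pat L a (sel (X q.1) (X q.2.1) (X q.2.2))) *
        ind (f (sel (X q.1) (X q.2.1) (X q.2.2)))) -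
      avg fun x : Fin n → Bool => one (pat L a x) * ind (f x)| ≤
      4 * ε₀ * (1 / 2) ^ L.card + 8 * M * (1 - (1 / 4) ^ K) ^ m := by
  have hpb := wh_pb h1 hX
  have s1 := wh2_step h0 hpb hpb hX hf hm L a hL true
  have s2 := wh2_step h0 hpb (wh_pb_id m₀) hX hf hm L a hL false
  have e1 : (avg fun q : Ω × Ω × Ω => one (pat L a (sel (X q.1) (X q.2.1) (X q.2.2))) *
        ind (f (sel (X q.1) (X q.2.1) (X q.2.2)))) =
      avg fun p : Ω × Ω => avg fun ω => one (pat L a (fix (Sβ true (X p.1)) (X p.2) (X ω))) *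
        ind (f (fix (Sβ true (X p.1)) (X p.2) (X ω))) := by
    rw [avg_prod fun h (r : Ω × Ω) => one (pat L a (sel (X h) (X r.1) (X r.2))) *
        ind (f (sel (X h) (X r.1) (X r.2))),
      avg_prod fun h z => avg fun ω => one (pat L a (fix (Sβ true (X h)) (X z) (X ω))) *
        ind (f (fix (Sβ true (X h)) (X z) (X ω)))]
    congr 1
    funext h
    rw [avg_prod fun z ω => one (pat L a (sel (X h) (X z) (X ω))) *
        ind (f (sel (X h) (X z) (X ω)))]
    simp only [wh_sel_true]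
  have e2 : (avg fun p : Ω × Ω => avg fun x : Fin n → Bool =>
        one (pat L a (fix (Sβ true (X p.1)) (X p.2) x)) *
          ind (f (fix (Sβ true (X p.1)) (X p.2) x))) =
      avg fun p : Ω × (Fin n → Bool) => avg fun ω =>
        one (pat L a (fix (Sβ false (X p.1)) p.2 (X ω))) *
          ind (f (fix (Sβ false (X p.1)) p.2 (X ω))) := by
    rw [avg_prod fun h z => avg fun x : Fin n → Bool =>
        one (pat L a (fix (Sβ true (X h)) (X z) x)) * ind (f (fix (Sβ true (X h)) (X z) x)),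
      avg_prod fun h (z : Fin n → Bool) => avg fun ω =>
        one (pat L a (fix (Sβ false (X h)) z (X ω))) * ind (f (fix (Sβ false (X h)) z (X ω)))]
    congr 1
    funext h
    rw [k2_avg_comm fun (z : Ω) (x : Fin n → Bool) =>
      one (pat L a (fix (Sβ true (X h)) (X z) x)) * ind (f (fix (Sβ true (X h)) (X z) x))]
    congr 1
    funext x
    congr 1
    funext z
    rw [← wh_sel_true, ← wh_sel_false]
  have e3 : (avg fun p : Ω × (Fin n → Bool) => avg fun x : Fin n → Bool =>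
        one (pat L a (fix (Sβ false (X p.1)) p.2 x)) * ind (f (fix (Sβ false (X p.1)) p.2 x))) =
      avg fun x : Fin n → Bool => one (pat L a x) * ind (f x) := by
    rw [avg_prod fun h (z : Fin n → Bool) => avg fun x : Fin n → Bool =>
        one (pat L a (fix (Sβ false (X h)) z x)) * ind (f (fix (Sβ false (X h)) z x))]
    have h2 : ∀ h : Ω, (avg fun z : Fin n → Bool => avg fun x : Fin n → Bool =>
        one (pat L a (fix (Sβ false (X h)) z x)) * ind (f (fix (Sβ false (X h)) z x))) =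
        avg fun x : Fin n → Bool => one (pat L a x) * ind (f x) := fun h =>
      wh_fix (Sβ false (X h)) fun y => one (pat L a y) * ind (f y)
    simp only [h2]
    exact avg_const _
  rw [e1]
  rw [e2] at s1
  rw [e3] at s2
  have h2 := abs_sub_le
    (avg fun p : Ω × Ω => avg fun ω => one (pat L a (fix (Sβ true (X p.1)) (X p.2) (X ω))) *
        ind (f (fix (Sβ true (X p.1)) (X p.2) (X ω))))
    (avg fun p : Ω × (Fin n → Bool) => avg fun ω =>
        one (pat L a (fix (Sβ false (X p.1)) p.2 (X ω))) *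
          ind (f (fix (Sβ false (X p.1)) p.2 (X ω))))
    (avg fun x : Fin n → Bool => one (pat L a x) * ind (f x))
  linarith

end Pool.Agent.MP_ca1109_lc.Wd
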