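import Pool.Agent.MP_ca1109_lc.Wd.WU

/-!
# The search trees over gates on overlapping blocks are closed under shifts
-/

namespace Pool.Agent.MP_ca1109_lc.Wd

open Finset Pool.Agent.MP_ca1109_lc.Ovr Pool.Agent.MP_ca1109_lc.Ov
open Pool.Agent.MP_ca1109_lc.Dnf (Cube)
open Pool.Agent.MP_ca1109_lc.Xp (xo)
open Pool.Agent.MP_ca1109_lc.Rf (DTree)

variable {n q : ℕ}

theorem wx_on {I : Fin q → Finset (Fin n)} {α : Type} {a : Fin q → (Fin n → Bool) → α}
    (h : OnBlocks I a) (s : Cube n) : OnBlocks I fun j x => a j (xo x s) := by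
  intro j x y hxy
  refine h j _ _ fun i hi => ?_
  unfold xo
  rw [hxy i hi]

theorem wx_gate {B : ℕ} {I : Fin q → Finset (Fin n)} {g : (Fin n → Bool) → Bool}
    (h : TGate B I g) (s : Cube n) : TGate B I fun x => g (xo x s) := by
  rcases h with (⟨G, i1, i2, a, A, h1, h2, h3⟩ | ⟨M, i1, i2, a, A, h1, h2, h3⟩) |
    ⟨w, θ, h1, h2, h3⟩
  · exact Or.inl (Or.inl ⟨G, i1, i2, _, A, h1, wx_on h2 s, fun x => h3 _⟩)
  · exact Or.inl (Or.inr ⟨M, i1, i2, _, A, h1, wx_on h2 s, fun x => h3 _⟩)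
  · exact Or.inr ⟨_, θ, wx_on h1 s, fun j x => h2 _ _, fun x => h3 _⟩

theorem wx_dtree {𝒯 𝒯' : ((Fin n → Bool) → Bool) → Prop} (s : Cube n)
    (h : ∀ T, 𝒯 T → 𝒯' fun x => T (xo x s)) {d : ℕ} {T : (Fin n → Bool) → Bool}
    (hT : DTree 𝒯 d T) : DTree 𝒯' d fun x => T (xo x s) := by
  induction hT with
  | leaf h1 => exact DTree.leaf (h _ h1)
  | @node d T U i _ _ h1 h2 =>
    cases hs : s i
    · have h3 := DTree.node i h1 h2
      convert h3 using 1
      funext x
      have : xo x s i = x i := by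
        unfold xo
        rw [hs, Bool.xor_false]
      show (if xo x s i = true then U (xo x s) else T (xo x s)) = _
      rw [this]
    · have h3 := DTree.node i h2 h1
      convert h3 using 1
      funext x
      have : xo x s i = !(x i) := by
        unfold xo
        rw [hs, Bool.xor_true]
      show (if xo x s i = true then U (xo x s) else T (xo x s)) = _
      rw [this]
      cases x i <;> simp

theorem wx_search {I : Fin q → Finset (Fin n)} {𝒯 𝒯' : ((Fin n → Bool) → Bool) → Prop}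
    (s : Cube n) (h : ∀ T, 𝒯 T → 𝒯' fun x => T (xo x s)) {T : (Fin n → Bool) → Bool}
    (hT : Search I 𝒯 T) : Search I 𝒯' fun x => T (xo x s) := by
  obtain ⟨π, p, U, T₀, h1, h2, h3, h4, h5⟩ := hT
  refine ⟨π, fun j x => p j (xo x s), fun j w x => U j (xo w s) (xo x s), fun x => T₀ (xo x s),
    wx_on h1 s, ?_, h _ h3, fun j w => h _ (h4 j (xo w s)), fun x => h5 (xo x s)⟩
  intro j x y hxy
  have h6 := wx_on h2 s j x y hxy
  funext z
  exact congrFun h6 (xo z s)

theorem wx_stree {N B k : ℕ} {I : Fin q → Finset (Fin n)} (s : Cube n) :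
    ∀ (D : ℕ) (T : (Fin n → Bool) → Bool), STree N B k I D T →
      STree N B k I D fun x => T (xo x s)
  | 0, _, hT => by
    obtain ⟨g, F, h1, h2⟩ := hT
    exact ⟨fun i x => g i (xo x s), F, fun i => wx_gate (h1 i) s, fun x => h2 _⟩
  | D + 1, _, hT => by
    obtain ⟨d, hd, hT⟩ := hT
    exact ⟨d, hd, wx_dtree s (fun _ hU => wx_search s (fun _ hV => wx_stree s D _ hV) hU) hT⟩

theorem wx_awu {N r B k D : ℕ} : XoC (n := n) (AWU (n := n) N r B k D) := by
  rintro f ⟨q, I, h1, h2, h3⟩ s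
  exact ⟨q, I, h1, h2, wx_stree s D f h3⟩

end Pool.Agent.MP_ca1109_lc.Wd
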