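import Pool.Agent.MP_ca1109_lc.Wd.WP2
import Pool.Agent.MP_ca1109_lc.Wd.WH2
import Pool.Agent.MP_ca1109_lc.Wd.WG
import Pool.Agent.MP_ca1109_lc.Wd.WX
import Pool.Agent.MP_ca1109_lc.Ovr.PF
import Pool.Agent.MP_ca1109_lc.Ovr.OV2

/-!
# Programs of any width in which few consecutive steps can lead to two states: the theorem
-/

namespace Pool.Agent.MP_ca1109_lc.Wd

open Finset Pool.Agent.H66 Pool.Agent.MP_ca1109_lc.Mpg Pool.Agent.MP_ca1109_lc.Agp
  Pool.Agent.MP_ca1109_lc.Ovr Pool.Agent.MP_ca1109_lc.Ov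
open Pool.Agent.MP_ca1109_lc.Dnf (Cube one)
open Pool.Agent.MP_ca1109_lc.Rf (pat)
open Pool.Agent.MP_ca1109_lc.Xp (xo avg_xo)

variable {n : ℕ}

theorem wf_comm (f g : Bool → Bool) : Rf.Const f ∨ Rf.Const g ∨ ∀ s, f (g s) = g (f s) := by
  have h : ∀ f : Bool → Bool, Rf.Const f ∨ (∀ s, f s = s) ∨ ∀ s, f s = !s := by
    intro f
    rcases h0 : f false with _ | _ <;> rcases h1 : f true with _ | _
    · exact Or.inl ⟨false, fun s => by cases s <;> assumption⟩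
    · exact Or.inr (Or.inl fun s => by cases s <;> assumption)
    · exact Or.inr (Or.inr fun s => by cases s <;> assumption)
    · exact Or.inl ⟨true, fun s => by cases s <;> assumption⟩
  rcases h f with hf | hf | hf
  · exact Or.inl hf
  · rcases h g with hg | hg | hg
    · exact Or.inr (Or.inl hg)
    · exact Or.inr (Or.inr fun s => by rw [hf, hf])
    · exact Or.inr (Or.inr fun s => by rw [hf, hf])
  · rcases h g with hg | hg | hg
    · exact Or.inr (Or.inl hg)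
    · exact Or.inr (Or.inr fun s => by rw [hg, hg])
    · exact Or.inr (Or.inr fun s => by rw [hf, hg, hg, hf])

theorem wf_gate {q : ℕ} {I : Fin q → Finset (Fin n)} {τ : Fin q → (Fin n → Bool) → Bool → Bool}
    (hτ : OnBlocks I τ) : FGate 2 I fun x => run (Equiv.refl _) τ false x := by
  refine Or.inr (Or.inr ⟨Bool, inferInstance, Equiv.refl _, τ, false, {true}, by simp, hτ,
    Or.inl fun j x j' x' => wf_comm _ _, fun x => ?_⟩)
  rw [Set.mem_singleton_iff]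

theorem wf_has2 {N : ℕ} (hN : 1 ≤ N) : Has2 (n := n) N (AWU (n := n) N 2 5 2 6) := by
  intro I τ₁ τ₂ F f h1 h2 h3 h4 h5
  refine ⟨n + 1, I, h1, over_two h2, ?_⟩
  have h6 : FTree N 2 2 I 0 f := by
    refine ⟨![fun x => run (Equiv.refl _) τ₁ false x, fun x => run (Equiv.refl _) τ₂ false x],
      fun v => F (v 0) (v 1), fun i => ?_, fun x => ?_⟩
    · fin_cases i
      · exact wf_gate h3
      · exact wf_gate h4
    · rw [h5]
      rfl
  exact ftree_stree hN 0 f h6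

theorem steps_xor {Q : Type} (τ : ℕ → Bool → Q → Q) (y b : ℕ → Bool) (a : ℕ) (s : Q) : ∀ k : ℕ,
    steps (fun t β => τ t (xor β (b t))) y a k s = steps τ (fun t => xor (y t) (b t)) a k s
  | 0 => rfl
  | k + 1 => by
    show τ (a + k) (xor (y (a + k)) (b (a + k)))
        (steps (fun t β => τ t (xor β (b t))) y a k s) =
      τ (a + k) (xor (y (a + k)) (b (a + k))) (steps τ (fun t => xor (y t) (b t)) a k s)
    rw [steps_xor τ y b a s k]

theorem wf_xoc (K : ℕ) : XoC (n := n) (KTest K) := by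
  have key : ∀ g : Cube n → Bool, KProg K g → ∀ s : Cube n, KProg K fun x => g (xo x s) := by
    rintro g ⟨Q, q, π, τ, q₀, A, h1, h2, h3⟩ s
    refine ⟨Q, q, π, fun t β => τ t (xor β (s (π t))), q₀, A, h1, fun a ha => ?_, fun x => ?_⟩
    · obtain ⟨y, u, v, h⟩ := h2 a ha
      refine ⟨fun t => xor (y t) (s (π t)), u, v, fun r => ?_⟩
      rw [steps_xor]
      have h4 : (fun t => xor (xor (y t) (s (π t))) (s (π t))) = y := by
        funext t
        rw [Bool.xor_assoc, Bool.xor_self, Bool.xor_false]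
      rw [h4]
      exact h r
    · rw [steps_xor]
      exact h3 (xo x s)
  rintro f ⟨g₁, g₂, F, h1, h2, h3⟩ s
  exact ⟨_, _, F, key g₁ h1 s, key g₂ h2 s, fun x => h3 _⟩

theorem wf_clog (hn : 2 ≤ n) : 2 ^ Nat.clog 2 n ≤ n ^ 2 := by
  have h2 : 2 ^ (Nat.clog 2 n - 1) < n := Nat.pow_pred_clog_lt_self (by norm_num) (by omega)
  have h3 : 0 < Nat.clog 2 n := Nat.clog_pos (by norm_num) (by omega)
  have h4 : 2 ^ Nat.clog 2 n = 2 * 2 ^ (Nat.clog 2 n - 1) := by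
    rw [← pow_succ']
    congr 1
    omega
  rw [h4, sq]
  exact Nat.mul_le_mul hn h2.le

theorem wf_num {e w : ℕ} {ρ ε : ℝ} (hρ : 0 ≤ ρ) (hw : ρ ^ w ≤ (1 / 2) ^ (e + 4)) (hε : 0 < ε)
    (hn : 2 ≤ n) (hn2 : 128 / ε ≤ n) {l : ℕ} (hl : l ≤ e * Nat.clog 2 n) :
    8 * ((2 * (n + 1) ^ 2 : ℕ) : ℝ) * ρ ^ (w * Nat.clog 2 n) ≤ ε / 2 * (1 / 2) ^ l := by
  have h0 : (2 : ℝ) ≤ n := by exact_mod_cast hn
  have hn0 : (0 : ℝ) < n := by linarith
  have h1 : ρ ^ (w * Nat.clog 2 n) ≤ (1 / 2) ^ ((e + 4) * Nat.clog 2 n) := by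
    rw [pow_mul, pow_mul]
    exact pow_le_pow_left₀ (by positivity) hw _
  have h2 : (1 / 2 : ℝ) ^ ((e + 4) * Nat.clog 2 n) =
      (1 / 2) ^ (e * Nat.clog 2 n) * ((1 / 2) ^ Nat.clog 2 n) ^ 4 := by
    rw [← pow_mul, ← pow_add]
    congr 1
    ring
  have h3 : (1 / 2 : ℝ) ^ Nat.clog 2 n ≤ 1 / n := by
    rw [one_div_pow, one_div, one_div]
    refine inv_anti₀ hn0 ?_
    exact_mod_cast Nat.le_pow_clog (by norm_num) n
  have h4 : ((1 / 2 : ℝ) ^ Nat.clog 2 n) ^ 4 ≤ (1 / n) ^ 4 := pow_le_pow_left₀ (by positivity) h3 _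
  have h5 : (1 / 2 : ℝ) ^ (e * Nat.clog 2 n) ≤ (1 / 2) ^ l :=
    pow_le_pow_of_le_one (by norm_num) (by norm_num) hl
  have h6 : ρ ^ (w * Nat.clog 2 n) ≤ (1 / 2) ^ l * (1 / n) ^ 4 := by
    refine h1.trans ?_
    rw [h2]
    exact mul_le_mul h5 h4 (by positivity) (by positivity)
  have h7 : 8 * ((2 * (n + 1) ^ 2 : ℕ) : ℝ) ≤ 64 * (n : ℝ) ^ 2 := by
    push_cast
    nlinarith
  have h8 : 64 * (n : ℝ) ^ 2 * (1 / n) ^ 4 ≤ ε / 2 := by
    have h9 : 64 * (n : ℝ) ^ 2 * (1 / n) ^ 4 = 64 / (n : ℝ) ^ 2 := by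
      field_simp
    rw [h9, div_le_iff₀ (by positivity)]
    rw [div_le_iff₀ hε] at hn2
    nlinarith
  have h9 : (0 : ℝ) < (1 / 2) ^ l := by positivity
  have h10 : 0 ≤ ρ ^ (w * Nat.clog 2 n) := by positivity
  calc 8 * ((2 * (n + 1) ^ 2 : ℕ) : ℝ) * ρ ^ (w * Nat.clog 2 n) ≤
      64 * (n : ℝ) ^ 2 * ((1 / 2) ^ l * (1 / n) ^ 4) :=
        mul_le_mul h7 h6 h10 (by positivity)
    _ = (64 * (n : ℝ) ^ 2 * (1 / n) ^ 4) * (1 / 2) ^ l := by ring
    _ ≤ _ := mul_le_mul_of_nonneg_right h8 h9.le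

/-- The cells. -/
theorem wf_cell {K : ℕ} (hK : 1 ≤ K) (e : ℕ) (ε : ℝ) (hε : 0 < ε) :
    ∃ E G, NG E G ∧ ∃ n₀ : ℕ, ∀ n ≥ n₀,
      LWtr (KTest (n := n) K) (e * Nat.clog 2 n) ε fun ω : Fin (2 ^ E n) => out G n ω := by
  obtain ⟨ρ, hρ⟩ : ∃ ρ : ℝ, ρ = 1 - (1 / 4) ^ K := ⟨_, rfl⟩
  have hρ0 : 0 ≤ ρ := by
    have : (1 / 4 : ℝ) ^ K ≤ 1 := pow_le_one₀ (by norm_num) (by norm_num)
    linarith
  have hρ1 : ρ < 1 := by
    have : (0 : ℝ) < (1 / 4) ^ K := by positivity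
    linarith
  obtain ⟨w, hw⟩ := exists_pow_lt_of_lt_one (show (0 : ℝ) < (1 / 2) ^ (e + 4) by positivity) hρ1
  have hε₀ : 0 < min (ε / 8) 1 := lt_min (by positivity) one_pos
  obtain ⟨E, G, hNG, n₀, H⟩ := aw_cell (4 * K * (w + 2)) 2 5 2 6 (e + K * w) hε₀
  obtain ⟨E', G', hNG', hF⟩ := wg hNG
  obtain ⟨n₁, hn₁⟩ := exists_nat_gt (128 / ε)
  refine ⟨E', G', hNG', max 2 (max n₀ n₁), fun n hn => ?_⟩
  have hn2 : 2 ≤ n := (le_max_left _ _).trans hn
  have hn' := (le_max_right 2 (max n₀ n₁)).trans hn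
  have hn0 : n₀ ≤ n := (le_max_left _ _).trans hn'
  have hn1 : 128 / ε ≤ (n : ℝ) :=
    hn₁.le.trans (by exact_mod_cast (le_max_right n₀ n₁).trans hn')
  have hne : Nonempty (Fin (2 ^ E n)) := ⟨⟨0, by positivity⟩⟩
  have hX := H n hn0
  have hlog : 0 < Nat.clog 2 n := Nat.clog_pos (by norm_num) hn2
  have hN1 : 1 ≤ n ^ (4 * K * (w + 2)) := Nat.one_le_pow _ _ (by omega)
  have hN : 2 ^ (2 * ((w * Nat.clog 2 n + 2) * K)) ≤ n ^ (4 * K * (w + 2)) := by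
    calc 2 ^ (2 * ((w * Nat.clog 2 n + 2) * K)) ≤ 2 ^ (Nat.clog 2 n * (2 * K * (w + 2))) := by
          refine Nat.pow_le_pow_right (by norm_num) ?_
          have h1 : (w * Nat.clog 2 n + 2) ≤ (w + 2) * Nat.clog 2 n := by nlinarith
          calc 2 * ((w * Nat.clog 2 n + 2) * K) ≤ 2 * (((w + 2) * Nat.clog 2 n) * K) :=
                Nat.mul_le_mul_left _ (Nat.mul_le_mul_right _ h1)
            _ = _ := by ring
      _ = (2 ^ Nat.clog 2 n) ^ (2 * K * (w + 2)) := by rw [pow_mul]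
      _ ≤ (n ^ 2) ^ (2 * K * (w + 2)) := Nat.pow_le_pow_left (wf_clog hn2) _
      _ = n ^ (4 * K * (w + 2)) := by
          rw [← pow_mul]
          congr 1
          ring
  have main : ∀ f : Cube n → Bool, RedG (AWU (n := n) (n ^ (4 * K * (w + 2))) 2 5 2 6) K
      (w * Nat.clog 2 n) (2 * (n + 1) ^ 2) f →
      ∀ (L : Finset (Fin n)) (a : Cube n), L.card ≤ e * Nat.clog 2 n →
      |(avg fun p : Fin (2 ^ E' n) => one (pat L a (out G' n p)) * ind (f (out G' n p))) -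
        avg fun x : Cube n => one (pat L a x) * ind (f x)| ≤ ε * (1 / 2) ^ L.card := by
    intro f hf L a hL
    rw [hF n fun x => one (pat L a x) * ind (f x)]
    have h1 := wh2_hyb hε₀.le (min_le_right _ _) hX hf
      (by rw [add_mul, ← mul_assoc]; exact Nat.le_add_left _ _) L a
      (hL.trans (Nat.mul_le_mul_right _ (Nat.le_add_right e (K * w))))
    refine h1.trans ?_
    rw [← hρ]
    have h2 := wf_num hρ0 hw.le hε hn2 hn1 hL
    have h3 : 4 * min (ε / 8) 1 ≤ ε / 2 := by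
      have := min_le_left (ε / 8) 1
      linarith
    have h4 : (0 : ℝ) < (1 / 2) ^ L.card := by positivity
    have h5 := mul_le_mul_of_nonneg_right h3 h4.le
    linarith
  intro L a hL
  refine ⟨?_, fun f hf => main f (wp2_red hK (wf_has2 hN1) hN hf) L a hL⟩
  have h1 := main (fun _ => true) ⟨∅, by simp, by simp, fun _ _ _ => aw_true hN1⟩ L a hL
  have h2 : ind true = 1 := rfl
  simp only [h2, mul_one] at h1
  rw [aw_pat] at h1
  exact h1

theorem kprog_succ {K : ℕ} {g : (Fin n → Bool) → Bool} (hg : KProg K g) : KProg (K + 1) g := by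
  obtain ⟨Q, q, π, τ, s, A, h1, h2, h3⟩ := hg
  refine ⟨Q, q, π, τ, s, A, h1, fun a ha => ?_, h3⟩
  obtain ⟨y, u, v, h⟩ := h2 a (by omega)
  refine ⟨y, τ (a + K) (y (a + K)) u, τ (a + K) (y (a + K)) v, fun r => ?_⟩
  show τ (a + K) (y (a + K)) (steps τ y a K r) = _ ∨ τ (a + K) (y (a + K)) (steps τ y a K r) = _
  rcases h r with h | h
  · exact Or.inl (by rw [h])
  · exact Or.inr (by rw [h])

theorem ktest_succ {K : ℕ} {g : (Fin n → Bool) → Bool} (hg : KTest K g) : KTest (K + 1) g := by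
  obtain ⟨g₁, g₂, F, h1, h2, h3⟩ := hg
  exact ⟨g₁, g₂, F, kprog_succ h1, kprog_succ h2, h3⟩

/-- The search trees over gates on overlapping blocks, and the programs. -/
theorem wfinal (K c r B k D h : ℕ) {ε : ℝ} (hε : 0 < ε) :
    LogGen (fun n f => AvgP (fun g => AWU (n ^ c) r B k D g ∨ KTest K g) (h * Nat.clog 2 n) f)
      ε := by
  obtain ⟨E, G, hE, hG, hl, C, hC⟩ := aw_avg (P := fun n g => AWU (n ^ c) r B k D g ∨
    KTest (K + 1) g) h (fun e _ hε => wu_ng (P := fun n => AWU (n ^ c) r B k D)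
      (P' := fun _ => KTest (K + 1)) (fun _ => wx_awu) (fun _ => wf_xoc (K + 1)) e _
      (aw_cell c r B k D e hε) (wf_cell (Nat.succ_pos K) e _ hε)) hε
  refine ⟨E, G, hE, hG, hl, C, ?_⟩
  filter_upwards [hC] with n hn
  refine ⟨hn.1, hn.2.1, fun T hT => hn.2.2 T ?_⟩
  obtain ⟨N, L, a, g, h1, h2, h3, h4⟩ := hT
  exact ⟨N, L, a, g, h1, h2, fun j => (h3 j).imp_right ktest_succ, h4⟩

end Pool.Agent.MP_ca1109_lc.Wd
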