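import Pool.Agent.MP_ca1109_lc.Wd.WP3
import Pool.Agent.MP_ca1109_lc.Wd.WF2

/-!
# Several programs of any width which read the bits in two orders: the theorem
-/

namespace Pool.Agent.MP_ca1109_lc.Wd

open Finset Pool.Agent.H66 Pool.Agent.MP_ca1109_lc.Mpg Pool.Agent.MP_ca1109_lc.Agp
  Pool.Agent.MP_ca1109_lc.Ovr Pool.Agent.MP_ca1109_lc.Ov
open Pool.Agent.MP_ca1109_lc.Dnf (Cube one)
open Pool.Agent.MP_ca1109_lc.Rf (pat)
open Pool.Agent.MP_ca1109_lc.Xp (xo avg_xo)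

variable {n : ℕ}

theorem wf3_has {N : ℕ} (hN : 1 ≤ N) (k : ℕ) :
    HasK (n := n) N k (AWU (n := n) N 2 5 (k + k) ((k + k) * 3)) := by
  intro I τ₁ τ₂ F f h1 h2 h3 h4 h5
  refine ⟨n + 1, I, h1, over_two h2, ?_⟩
  have h6 : FTree N 2 (k + k) I 0 f := by
    refine ⟨fun t x => Fin.addCases (motive := fun _ => Bool)
        (fun l => run (Equiv.refl _) (τ₁ l) false x) (fun l => run (Equiv.refl _) (τ₂ l) false x) t,
      fun v => F (fun l => v (Fin.castAdd k l)) fun l => v (Fin.natAdd k l), fun t => ?_,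
      fun x => ?_⟩
    · induction t using Fin.addCases with
      | left l =>
        simp only [Fin.addCases_left]
        exact wf_gate (h3 l)
      | right l =>
        simp only [Fin.addCases_right]
        exact wf_gate (h4 l)
    · rw [h5]
      simp only [Fin.addCases_left, Fin.addCases_right]
  exact ftree_stree hN 0 f h6

theorem wf3_xoc (K k : ℕ) : XoC (n := n) (JTest K k) := by
  have key : ∀ g : Fin k → Cube n → Bool, JProg K k g → ∀ s : Cube n,
      JProg K k fun l x => g l (xo x s) := by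
    rintro g ⟨Q, q, π, τ, q₀, A, h1, h2, h3⟩ s
    refine ⟨Q, q, π, fun l t β => τ l t (xor β (s (π t))), q₀, A, h1, fun a ha => ?_,
      fun l x => ?_⟩
    · obtain ⟨y, h⟩ := h2 a ha
      refine ⟨fun t => xor (y t) (s (π t)), fun l => ?_⟩
      obtain ⟨u, v, h⟩ := h l
      refine ⟨u, v, fun r => ?_⟩
      rw [steps_xor]
      have h4 : (fun t => xor (xor (y t) (s (π t))) (s (π t))) = y := by
        funext t
        rw [Bool.xor_assoc, Bool.xor_self, Bool.xor_false]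
      rw [h4]
      exact h r
    · rw [steps_xor]
      exact h3 l (xo x s)
  rintro f ⟨g₁, g₂, F, h1, h2, h3⟩ s
  exact ⟨_, _, F, key g₁ h1 s, key g₂ h2 s, fun x => h3 _⟩

/-- The cells. -/
theorem wf3_cell {K : ℕ} (hK : 1 ≤ K) (k e : ℕ) (ε : ℝ) (hε : 0 < ε) :
    ∃ E G, NG E G ∧ ∃ n₀ : ℕ, ∀ n ≥ n₀,
      LWtr (JTest (n := n) K k) (e * Nat.clog 2 n) ε fun ω : Fin (2 ^ E n) => out G n ω := by
  obtain ⟨ρ, hρ⟩ : ∃ ρ : ℝ, ρ = 1 - (1 / 4) ^ K := ⟨_, rfl⟩
  have hρ0 : 0 ≤ ρ := by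
    have : (1 / 4 : ℝ) ^ K ≤ 1 := pow_le_one₀ (by norm_num) (by norm_num)
    linarith
  have hρ1 : ρ < 1 := by
    have : (0 : ℝ) < (1 / 4) ^ K := by positivity
    linarith
  obtain ⟨w, hw⟩ := exists_pow_lt_of_lt_one (show (0 : ℝ) < (1 / 2) ^ (e + 4) by positivity) hρ1
  have hε₀ : 0 < min (ε / 8) 1 := lt_min (by positivity) one_pos
  obtain ⟨E, G, hNG, n₀, H⟩ := aw_cell (4 * K * (w + 2)) 2 5 (k + k) ((k + k) * 3) (e + K * w) hε₀
  obtain ⟨E', G', hNG', hF⟩ := wg hNG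
  obtain ⟨n₁, hn₁⟩ := exists_nat_gt (128 / ε)
  refine ⟨E', G', hNG', max 2 (max n₀ n₁), fun n hn => ?_⟩
  have hn2 : 2 ≤ n := (le_max_left _ _).trans hn
  have hn' := (le_max_right 2 (max n₀ n₁)).trans hn
  have hn0 : n₀ ≤ n := (le_max_left _ _).trans hn'
  have hn1 : 128 / ε ≤ (n : ℝ) :=
    hn₁.le.trans (by exact_mod_cast (le_max_right n₀ n₁).trans hn')
  have hne : Nonempty (Fin (2 ^ E n)) := ⟨⟨0, by positivity⟩⟩
  have hX := H n hn0
  have hlog : 0 < Nat.clog 2 n := Nat.clog_pos (by norm_num) hn2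
  have hN1 : 1 ≤ n ^ (4 * K * (w + 2)) := Nat.one_le_pow _ _ (by omega)
  have hN : 2 ^ (2 * ((w * Nat.clog 2 n + 2) * K)) ≤ n ^ (4 * K * (w + 2)) := by
    calc 2 ^ (2 * ((w * Nat.clog 2 n + 2) * K)) ≤ 2 ^ (Nat.clog 2 n * (2 * K * (w + 2))) := by
          refine Nat.pow_le_pow_right (by norm_num) ?_
          have h1 : (w * Nat.clog 2 n + 2) ≤ (w + 2) * Nat.clog 2 n := by nlinarith
          calc 2 * ((w * Nat.clog 2 n + 2) * K) ≤ 2 * (((w + 2) * Nat.clog 2 n) * K) :=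
                Nat.mul_le_mul_left _ (Nat.mul_le_mul_right _ h1)
            _ = _ := by ring
      _ = (2 ^ Nat.clog 2 n) ^ (2 * K * (w + 2)) := by rw [pow_mul]
      _ ≤ (n ^ 2) ^ (2 * K * (w + 2)) := Nat.pow_le_pow_left (wf_clog hn2) _
      _ = n ^ (4 * K * (w + 2)) := by
          rw [← pow_mul]
          congr 1
          ring
  have main : ∀ f : Cube n → Bool,
      RedG (AWU (n := n) (n ^ (4 * K * (w + 2))) 2 5 (k + k) ((k + k) * 3)) K
      (w * Nat.clog 2 n) (2 * (n + 1) ^ 2) f →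
      ∀ (L : Finset (Fin n)) (a : Cube n), L.card ≤ e * Nat.clog 2 n →
      |(avg fun p : Fin (2 ^ E' n) => one (pat L a (out G' n p)) * ind (f (out G' n p))) -
        avg fun x : Cube n => one (pat L a x) * ind (f x)| ≤ ε * (1 / 2) ^ L.card := by
    intro f hf L a hL
    rw [hF n fun x => one (pat L a x) * ind (f x)]
    have h1 := wh2_hyb hε₀.le (min_le_right _ _) hX hf
      (by rw [add_mul, ← mul_assoc]; exact Nat.le_add_left _ _) L a
      (hL.trans (Nat.mul_le_mul_right _ (Nat.le_add_right e (K * w))))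
    refine h1.trans ?_
    rw [← hρ]
    have h2 := wf_num hρ0 hw.le hε hn2 hn1 hL
    have h3 : 4 * min (ε / 8) 1 ≤ ε / 2 := by
      have := min_le_left (ε / 8) 1
      linarith
    have h4 : (0 : ℝ) < (1 / 2) ^ L.card := by positivity
    have h5 := mul_le_mul_of_nonneg_right h3 h4.le
    linarith
  intro L a hL
  refine ⟨?_, fun f hf => main f (wp3_red hK (wf3_has hN1 k) hN hf) L a hL⟩
  have h1 := main (fun _ => true) ⟨∅, by simp, by simp, fun _ _ _ => aw_true hN1⟩ L a hL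
  have h2 : ind true = 1 := rfl
  simp only [h2, mul_one] at h1
  rw [aw_pat] at h1
  exact h1

theorem jprog_succ {K k : ℕ} {g : Fin k → (Fin n → Bool) → Bool} (hg : JProg K k g) :
    JProg (K + 1) k g := by
  obtain ⟨Q, q, π, τ, s, A, h1, h2, h3⟩ := hg
  refine ⟨Q, q, π, τ, s, A, h1, fun a ha => ?_, h3⟩
  obtain ⟨y, h⟩ := h2 a (by omega)
  refine ⟨y, fun l => ?_⟩
  obtain ⟨u, v, h⟩ := h l
  refine ⟨τ l (a + K) (y (a + K)) u, τ l (a + K) (y (a + K)) v, fun r => ?_⟩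
  show τ l (a + K) (y (a + K)) (steps (τ l) y a K r) = _ ∨
    τ l (a + K) (y (a + K)) (steps (τ l) y a K r) = _
  rcases h r with h | h
  · exact Or.inl (by rw [h])
  · exact Or.inr (by rw [h])

theorem jtest_succ {K k : ℕ} {g : (Fin n → Bool) → Bool} (hg : JTest K k g) :
    JTest (K + 1) k g := by
  obtain ⟨g₁, g₂, F, h1, h2, h3⟩ := hg
  exact ⟨g₁, g₂, F, jprog_succ h1, jprog_succ h2, h3⟩

theorem ltest_jtest {K k : ℕ} {g : (Fin n → Bool) → Bool} (hg : LTest K k g) :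
    JTest (k * K) k g := by
  obtain ⟨g₁, g₂, F, h1, h2, h3⟩ := hg
  have key : ∀ g : Fin k → (Fin n → Bool) → Bool, LProg K k g → JProg (k * K) k g := by
    rintro g ⟨Q, q, π, τ, s, A, h1, h2, h3⟩
    exact ⟨Q, q, π, τ, s, A, h1, fun a ha => joint h2 a ha, h3⟩
  exact ⟨_, _, F, key g₁ h1, key g₂ h2, h3⟩

/-- The functions of two programs in two orders. -/
theorem ktest_ltest {K k : ℕ} {g : (Fin n → Bool) → Bool} (hg : KTest K g) :
    LTest K (k + 1) g := by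
  obtain ⟨g₁, g₂, F, h1, h2, h3⟩ := hg
  have key : ∀ g : (Fin n → Bool) → Bool, KProg K g → LProg K (k + 1) fun _ => g := by
    rintro g ⟨Q, q, π, τ, s, A, h1, h2, h3⟩
    exact ⟨fun _ => Q, q, π, fun _ => τ, fun _ => s, fun _ => A, h1, fun _ => h2, fun _ => h3⟩
  exact ⟨_, _, fun v w => F (v 0) (w 0), key g₁ h1, key g₂ h2, h3⟩

/-- The search trees over gates on overlapping blocks, and the programs. -/
theorem wfinal3 (K l c r B k D h : ℕ) {ε : ℝ} (hε : 0 < ε) :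
    LogGen (fun n f => AvgP (fun g => AWU (n ^ c) r B k D g ∨ LTest K l g) (h * Nat.clog 2 n) f)
      ε := by
  obtain ⟨E, G, hE, hG, hl, C, hC⟩ := aw_avg (P := fun n g => AWU (n ^ c) r B k D g ∨
    JTest (l * K + 1) l g) h (fun e _ hε => wu_ng (P := fun n => AWU (n ^ c) r B k D)
      (P' := fun _ => JTest (l * K + 1) l) (fun _ => wx_awu) (fun _ => wf3_xoc (l * K + 1) l) e _
      (aw_cell c r B k D e hε) (wf3_cell (Nat.succ_pos (l * K)) l e _ hε)) hε
  refine ⟨E, G, hE, hG, hl, C, ?_⟩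
  filter_upwards [hC] with n hn
  refine ⟨hn.1, hn.2.1, fun T hT => hn.2.2 T ?_⟩
  obtain ⟨N, L, a, g, h1, h2, h3, h4⟩ := hT
  exact ⟨N, L, a, g, h1, h2, fun j => (h3 j).imp_right fun h5 => jtest_succ (ltest_jtest h5), h4⟩

end Pool.Agent.MP_ca1109_lc.Wd
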