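import Pool.Agent.MP_ca1109_lc.Wd.Defs2

/-!
# Programs of any width in which few consecutive steps can lead to two states: the windows
-/

namespace Pool.Agent.MP_ca1109_lc.Wd

open Finset Pool.Agent.MP_ca1109_lc.Ov Pool.Agent.MP_ca1109_lc.Ovr

variable {n : ℕ} {Q : Type}

theorem steps_add (τ : ℕ → Bool → Q → Q) (y : ℕ → Bool) (a k : ℕ) (s : Q) : ∀ l : ℕ,
    steps τ y a (k + l) s = steps τ y (a + k) l (steps τ y a k s)
  | 0 => rfl
  | l + 1 => by
    show τ (a + (k + l)) (y (a + (k + l))) (steps τ y a (k + l) s) =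
      τ (a + k + l) (y (a + k + l)) (steps τ y (a + k) l (steps τ y a k s))
    rw [steps_add τ y a k s l, ← add_assoc]

theorem steps_congr {τ : ℕ → Bool → Q → Q} {y y' : ℕ → Bool} {a : ℕ} (s : Q) : ∀ k : ℕ,
    (∀ t, a ≤ t → t < a + k → y t = y' t) → steps τ y a k s = steps τ y' a k s
  | 0, _ => rfl
  | k + 1, h => by
    show τ (a + k) (y (a + k)) (steps τ y a k s) = τ (a + k) (y' (a + k)) (steps τ y' a k s)
    rw [h (a + k) (by omega) (by omega), steps_congr s k fun t h1 h2 => h t h1 (by omega)]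

/-- From the state `s` at the step `v`: the code of the state after the first cut, or the answer if
there is no cut. -/
def rg (cut : ℕ → Bool) (F : ℕ → Q → Q) (enc : ℕ → Q → Bool) (A : Q → Bool) :
    ℕ → ℕ → Q → Bool
  | 0, _, s => A s
  | k + 1, v, s => if cut v = true then enc v (F v s) else rg cut F enc A k (v + 1) (F v s)

theorem rg_dep {cut : ℕ → Bool} {F F' : ℕ → Q → Q} {enc : ℕ → Q → Bool} {A : Q → Bool} :
    ∀ (k v : ℕ), (∀ t, v ≤ t → t < v + k → (∀ t', v ≤ t' → t' < t → cut t' ≠ true) → F t = F' t) →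
      ∀ s, rg cut F enc A k v s = rg cut F' enc A k v s
  | 0, _, _, _ => rfl
  | k + 1, v, h, s => by
    show (if cut v = true then enc v (F v s) else rg cut F enc A k (v + 1) (F v s)) =
      (if cut v = true then enc v (F' v s) else rg cut F' enc A k (v + 1) (F' v s))
    rw [h v le_rfl (by omega) fun t' h1 h2 => by omega]
    by_cases hc : cut v = true
    · rw [if_pos hc, if_pos hc]
    · rw [if_neg hc, if_neg hc]
      refine rg_dep k (v + 1) (fun t h1 h2 h3 => h t (by omega) (by omega) fun t' h4 h5 => ?_) _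
      by_cases h6 : t' = v
      · rw [h6]
        exact hc
      · exact h3 t' (by omega) h5

theorem fold_of {β : Type} (f : β → Fin n → β) (B : ℕ → β) (h : ∀ p : Fin n, f (B p) p = B (p + 1)) :
    (List.finRange n).foldl f (B 0) = B n := by
  have key : ∀ (k v : ℕ), v + k = n → ((List.finRange n).drop v).foldl f (B v) = B n := by
    intro k
    induction k with
    | zero =>
      intro v hv
      have h1 : (List.finRange n).drop v = [] := by
        rw [List.drop_eq_nil_iff, List.length_finRange]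
        omega
      rw [h1, List.foldl_nil]
      congr 1
    | succ k ih =>
      intro v hv
      have hv' : v < n := by omega
      have h1 : (List.finRange n).drop v = ⟨v, hv'⟩ :: (List.finRange n).drop (v + 1) := by
        rw [List.drop_eq_getElem_cons (by simpa using hv')]
        congr 1
        simp
      rw [h1, List.foldl_cons, h ⟨v, hv'⟩]
      exact ih (v + 1) (by omega)
  exact key n 0 (by omega)

/-- The windows of one program. -/
theorem wp2_one {K m : ℕ} (hK : 1 ≤ K) {g : (Fin n → Bool) → Bool} (hg : KProg K g) :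
    ∃ J : Finset (Finset (Finset (Fin n)) × (Fin n → Bool)), J.card ≤ (n + 1) ^ 2 ∧
      (∀ w ∈ J, m ≤ w.1.card ∧ (∀ G ∈ w.1, G.card ≤ K) ∧
        (w.1 : Set (Finset (Fin n))).PairwiseDisjoint id) ∧
      ∀ (S : Finset (Fin n)) (z : Fin n → Bool),
        (∀ w ∈ J, ∃ G ∈ w.1, ∀ i ∈ G, i ∈ S ∧ z i = w.2 i) →
        ∃ (I : Fin (n + 1) → Finset (Fin n)) (τ' : Fin (n + 1) → (Fin n → Bool) → Bool → Bool),
          (∀ j, (I j).card ≤ (m + 2) * K) ∧ (∀ i, (univ.filter fun j => i ∈ I j).card ≤ 1) ∧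
          OnBlocks I τ' ∧ ∀ x, g (fix S z x) = run (Equiv.refl _) τ' false x := by
  classical
  obtain ⟨Q, q, π, τ, s, A, hπ, hτ, hgA⟩ := hg
  -- the length
  have hqn : q ≤ n := by
    have h1 := card_le_card_of_injOn (s := range q) (t := (univ : Finset (Fin n))) π
      (fun _ _ => mem_univ _) (fun t ht t' ht' h => hπ t (by simpa using ht) t' (by simpa using ht') h)
    simpa using h1
  -- the positions
  obtain ⟨pos, hpos⟩ : ∃ pos : Fin n → ℕ, ∀ i, (∃ t < q, π t = i) → pos i < q ∧ π (pos i) = i := by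
    have h1 : ∀ i, ∃ p, (∃ t < q, π t = i) → p < q ∧ π p = i := by
      intro i
      by_cases h : ∃ t < q, π t = i
      · obtain ⟨t, h1, h2⟩ := h
        exact ⟨t, fun _ => ⟨h1, h2⟩⟩
      · exact ⟨0, fun h' => absurd h' h⟩
    choose pos hpos using h1
    exact ⟨pos, hpos⟩
  have hposπ : ∀ t < q, pos (π t) = t := by
    intro t ht
    obtain ⟨h1, h2⟩ := hpos (π t) ⟨t, ht, rfl⟩
    exact hπ _ h1 t ht h2
  -- the groups
  have hch : ∀ g, ∃ (y : ℕ → Bool) (u v : Q), g * K + K ≤ q →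
      ∀ s, steps τ y (g * K) K s = u ∨ steps τ y (g * K) K s = v := by
    intro g
    by_cases h : g * K + K ≤ q
    · obtain ⟨y, u, v, h1⟩ := hτ (g * K) h
      exact ⟨y, u, v, fun _ => h1⟩
    · exact ⟨fun _ => false, s, s, fun h' => absurd h' h⟩
  choose Y U V hYUV using hch
  obtain ⟨c, hc⟩ : ∃ c : Fin n → Bool, ∀ i, c i = Y (pos i / K) (pos i) := ⟨_, fun _ => rfl⟩
  obtain ⟨Gs, hGs⟩ : ∃ Gs : ℕ → Finset (Fin n), ∀ g, Gs g = (Ico (g * K) (g * K + K)).image π :=
    ⟨_, fun _ => rfl⟩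
  have hGd : ∀ g g', g * K + K ≤ q → g' * K + K ≤ q → ∀ i, i ∈ Gs g → i ∈ Gs g' → g = g' := by
    intro g g' hg hg' i hi hi'
    rw [hGs] at hi hi'
    obtain ⟨t, ht, h1⟩ := mem_image.1 hi
    obtain ⟨t', ht', h2⟩ := mem_image.1 hi'
    rw [mem_Ico] at ht ht'
    have h3 : t = t' := hπ t (by omega) t' (by omega) (h1.trans h2.symm)
    have h4 : t / K = g := Nat.div_eq_of_lt_le (by omega) (by rw [Nat.succ_mul]; omega)
    have h5 : t' / K = g' := Nat.div_eq_of_lt_le (by omega) (by rw [Nat.succ_mul]; omega)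
    rw [← h4, ← h5, h3]
  have hGne : ∀ g, (Gs g).Nonempty := by
    intro g
    rw [hGs]
    exact ⟨π (g * K), mem_image.2 ⟨g * K, by rw [mem_Ico]; omega, rfl⟩⟩
  have hle : ∀ g₂ g, g < g₂ → g₂ * K ≤ q → g * K + K ≤ q := by
    intro g₂ g h1 h2
    have h3 : (g + 1) * K ≤ g₂ * K := Nat.mul_le_mul_right _ h1
    rw [Nat.succ_mul] at h3
    omega
  refine ⟨((univ : Finset (Fin (n + 1) × Fin (n + 1))).filter fun p =>
      (p.2 : ℕ) * K ≤ q ∧ m ≤ (p.2 : ℕ) - (p.1 : ℕ)).image fun p =>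
        ((Ico (p.1 : ℕ) (p.2 : ℕ)).image Gs, c), ?_, ?_, ?_⟩
  · refine card_image_le.trans ((card_filter_le _ _).trans ?_)
    rw [card_univ, Fintype.card_prod, Fintype.card_fin, sq]
  · intro w hw
    obtain ⟨p, hp, rfl⟩ := mem_image.1 hw
    obtain ⟨-, h1, h2⟩ := mem_filter.1 hp
    refine ⟨?_, ?_, ?_⟩
    · show m ≤ ((Ico (p.1 : ℕ) (p.2 : ℕ)).image Gs).card
      rw [card_image_of_injOn, Nat.card_Ico]
      · exact h2
      · intro g hg g' hg' h
        rw [coe_Ico, Set.mem_Ico] at hg hg'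
        obtain ⟨i, hi⟩ := hGne g
        exact hGd g g' (hle _ _ hg.2 h1) (hle _ _ hg'.2 h1) i hi (by rw [← h]; exact hi)
    · intro G hG
      obtain ⟨g, hg, rfl⟩ := mem_image.1 hG
      rw [hGs]
      refine card_image_le.trans ?_
      rw [Nat.card_Ico]
      omega
    · intro G hG G' hG' hne
      rw [mem_coe] at hG hG'
      obtain ⟨g, hg, rfl⟩ := mem_image.1 hG
      obtain ⟨g', hg', rfl⟩ := mem_image.1 hG'
      rw [mem_Ico] at hg hg'
      show Disjoint (Gs g) (Gs g')
      rw [disjoint_left]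
      intro i hi hi'
      exact hne (by rw [hGd g g' (hle _ _ hg.2 h1) (hle _ _ hg'.2 h1) i hi hi'])
  intro S z hgood
  -- the cuts
  obtain ⟨cut, hcut⟩ : ∃ cut : ℕ → Bool, ∀ t, cut t = true ↔ ∃ g, t + 1 = g * K + K ∧
      g * K + K ≤ q ∧ ∀ t', g * K ≤ t' → t' < g * K + K → π t' ∈ S ∧ z (π t') = c (π t') :=
    ⟨fun t => decide (∃ g, t + 1 = g * K + K ∧
      g * K + K ≤ q ∧ ∀ t', g * K ≤ t' → t' < g * K + K → π t' ∈ S ∧ z (π t') = c (π t')),
      fun t => by simp only [decide_eq_true_eq]⟩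
  have hwin : ∀ g₁ g₂ : ℕ, g₂ * K ≤ q → m ≤ g₂ - g₁ → ∃ g, g₁ ≤ g ∧ g < g₂ ∧
      cut (g * K + K - 1) = true := by
    intro g₁ g₂ h1 h2
    by_cases h12 : g₁ < g₂
    · have hg2 : g₂ ≤ n := by
        have : g₂ ≤ g₂ * K := Nat.le_mul_of_pos_right _ hK
        omega
      obtain ⟨G, hG, hGS⟩ := hgood ((Ico g₁ g₂).image Gs, c) (mem_image.2
        ⟨(⟨g₁, by omega⟩, ⟨g₂, by omega⟩), mem_filter.2 ⟨mem_univ _, h1, h2⟩, rfl⟩)
      obtain ⟨g, hg, rfl⟩ := mem_image.1 hG
      rw [mem_Ico] at hg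
      refine ⟨g, hg.1, hg.2, ?_⟩
      rw [hcut]
      refine ⟨g, by omega, hle _ _ hg.2 h1, fun t' h3 h4 => ?_⟩
      refine hGS (π t') ?_
      rw [hGs]
      exact mem_image.2 ⟨t', mem_Ico.2 ⟨h3, h4⟩, rfl⟩
    · exfalso
      obtain ⟨G, hG, -⟩ := hgood ((Ico (0 : ℕ) (0 : ℕ)).image Gs, c) (mem_image.2
        ⟨(⟨0, by omega⟩, ⟨0, by omega⟩), mem_filter.2 ⟨mem_univ _, by simp, by
          show m ≤ 0 - 0
          omega⟩, rfl⟩)
      simp at hG
  obtain ⟨F, hF⟩ : ∃ F : (Fin n → Bool) → ℕ → Q → Q, F = fun x t s =>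
      τ t (fix S z x (π t)) s := ⟨_, rfl⟩
  obtain ⟨enc, henc⟩ : ∃ enc : ℕ → Q → Bool, enc = fun t s => decide (s = U (t / K)) := ⟨_, rfl⟩
  obtain ⟨dec, hdec⟩ : ∃ dec : ℕ → Bool → Q, dec = fun t β =>
      if β = true then U (t / K) else V (t / K) := ⟨_, rfl⟩
  obtain ⟨σ, hσ⟩ : ∃ σ : (Fin n → Bool) → ℕ → Q, σ = fun x v =>
      steps τ (fun t => fix S z x (π t)) 0 v s := ⟨_, rfl⟩
  have hσs : ∀ x v, σ x (v + 1) = F x v (σ x v) := by
    intro x v
    rw [hσ, hF]
    show τ (0 + v) (fix S z x (π (0 + v))) _ = τ v (fix S z x (π v)) _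
    rw [Nat.zero_add]
  have hed : ∀ x p, cut p = true → dec p (enc p (σ x (p + 1))) = σ x (p + 1) := by
    intro x p hp
    obtain ⟨g, h1, h2, h3⟩ := (hcut p).1 hp
    have h4 : p / K = g := Nat.div_eq_of_lt_le (by omega) (by rw [Nat.succ_mul]; omega)
    have h5 : σ x (p + 1) = steps τ (Y g) (g * K) K (σ x (g * K)) := by
      rw [h1, hσ]
      show steps τ (fun t => fix S z x (π t)) 0 (g * K + K) s =
        steps τ (Y g) (g * K) K (steps τ (fun t => fix S z x (π t)) 0 (g * K) s)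
      rw [steps_add, Nat.zero_add]
      refine steps_congr _ K fun t h6 h7 => ?_
      show fix S z x (π t) = Y g t
      have h8 : t < q := by omega
      have h9 : t / K = g := Nat.div_eq_of_lt_le (by omega) (by rw [Nat.succ_mul]; omega)
      unfold fix
      rw [if_pos (h3 t h6 h7).1, (h3 t h6 h7).2, hc, hposπ t h8, h9]
    have h6 : σ x (p + 1) = U g ∨ σ x (p + 1) = V g := by
      rw [h5]
      exact hYUV g h2 _
    rw [hdec, henc]
    show (if decide (σ x (p + 1) = U (p / K)) = true then U (p / K) else V (p / K)) = _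
    rw [h4]
    by_cases h7 : σ x (p + 1) = U g
    · rw [if_pos (by simpa using h7), h7]
    · rw [if_neg (by simpa using h7)]
      rcases h6 with h6 | h6
      · exact absurd h6 h7
      · exact h6.symm
  obtain ⟨I, hI⟩ : ∃ I : Fin (n + 1) → Finset (Fin n), I = fun j : Fin (n + 1) =>
      univ.filter fun i : Fin n =>
      (∀ p : ℕ, p + 1 = (j : ℕ) → cut p = true) ∧ i ∉ S ∧ (∃ t < q, π t = i) ∧
      (j : ℕ) ≤ pos i ∧ ∀ t : ℕ, (j : ℕ) ≤ t → t < pos i → cut t ≠ true := ⟨_, rfl⟩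
  have hmem : ∀ (j : Fin (n + 1)) i, i ∈ I j ↔ ((∀ p : ℕ, p + 1 = (j : ℕ) → cut p = true) ∧
      i ∉ S ∧ (∃ t < q, π t = i) ∧ (j : ℕ) ≤ pos i ∧
      ∀ t : ℕ, (j : ℕ) ≤ t → t < pos i → cut t ≠ true) := by
    intro j i
    rw [hI]
    simp only [mem_filter, mem_univ, true_and]
  -- dependence
  have hdep : ∀ (j : Fin (n + 1)), (∀ p : ℕ, p + 1 = (j : ℕ) → cut p = true) →
      ∀ x y : Fin n → Bool, (∀ i ∈ I j, x i = y i) → ∀ s,
      rg cut (F x) enc (fun s => decide (s ∈ A)) (q - (j : ℕ)) (j : ℕ) s =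
      rg cut (F y) enc (fun s => decide (s ∈ A)) (q - (j : ℕ)) (j : ℕ) s := by
    intro j hj x y hxy s
    refine rg_dep _ _ (fun t ht ht2 h1 => ?_) s
    have htq : t < q := by omega
    rw [hF]
    show (fun s => τ t (fix S z x (π t)) s) = fun s => τ t (fix S z y (π t)) s
    unfold fix
    by_cases hS : π t ∈ S
    · simp only [hS, if_true]
    · simp only [hS, if_false]
      have h3 : π t ∈ I j := by
        rw [hmem, hposπ t htq]
        exact ⟨hj, hS, ⟨t, htq, rfl⟩, ht, h1⟩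
      rw [hxy _ h3]
  obtain ⟨τ', hτ'⟩ : ∃ τ' : Fin (n + 1) → (Fin n → Bool) → Bool → Bool, τ' = fun j x β =>
      Fin.cases (motive := fun _ => Bool)
        (rg cut (F x) enc (fun s => decide (s ∈ A)) q 0 s)
        (fun p : Fin n => if (p : ℕ) < q ∧ cut p = true then
          rg cut (F x) enc (fun s => decide (s ∈ A)) (q - ((p : ℕ) + 1)) ((p : ℕ) + 1)
            (dec p β) else β) j := ⟨_, rfl⟩
  refine ⟨I, τ', fun j => ?_, fun i => ?_, fun j x y hxy => ?_, fun x => ?_⟩
  · -- size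
    by_contra hcon
    rw [not_le] at hcon
    obtain ⟨i₀, hi₀, hmax⟩ := exists_max_image (I j) pos (card_pos.1 (by omega))
    have hi₀' := (hmem j i₀).1 hi₀
    have hq0 := (hpos i₀ hi₀'.2.2.1).1
    have hsub : ((I j).image pos) ⊆ Ico (j : ℕ) (pos i₀ + 1) := by
      intro t ht
      obtain ⟨i, hi, rfl⟩ := mem_image.1 ht
      rw [mem_Ico]
      exact ⟨((hmem j i).1 hi).2.2.2.1, Nat.lt_succ_of_le (hmax i hi)⟩
    have hcard := card_le_card hsub
    rw [card_image_of_injOn, Nat.card_Ico] at hcard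
    · have h1 : (m + 2) * K = m * K + 2 * K := by ring
      -- the groups
      have hg1 : ((j : ℕ) + (K - 1)) / K * K ≤ (j : ℕ) + (K - 1) := Nat.div_mul_le_self _ _
      have hg1' : (j : ℕ) ≤ ((j : ℕ) + (K - 1)) / K * K := by
        have h2 := Nat.lt_div_mul_add (a := (j : ℕ) + (K - 1)) (b := K) (by omega)
        omega
      have hg2 : pos i₀ / K * K ≤ pos i₀ := Nat.div_mul_le_self _ _
      have hg2' : pos i₀ < pos i₀ / K * K + K := Nat.lt_div_mul_add (by omega)
      have hd : m ≤ pos i₀ / K - ((j : ℕ) + (K - 1)) / K := by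
        have h3 : m * K ≤ (pos i₀ / K - ((j : ℕ) + (K - 1)) / K) * K := by
          rw [Nat.sub_mul]
          omega
        exact Nat.le_of_mul_le_mul_right h3 (by omega)
      obtain ⟨g, h4, h5, h6⟩ := hwin _ _ (by omega : pos i₀ / K * K ≤ q) hd
      have h7 : ((j : ℕ) + (K - 1)) / K * K ≤ g * K := Nat.mul_le_mul_right _ h4
      have h8 : (g + 1) * K ≤ pos i₀ / K * K := Nat.mul_le_mul_right _ h5
      rw [Nat.succ_mul] at h8
      exact hi₀'.2.2.2.2 (g * K + K - 1) (by omega) (by omega) h6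
    · intro i hi i' hi' h
      rw [mem_coe] at hi hi'
      have h1 := (hpos i ((hmem j i).1 hi).2.2.1).2
      have h2 := (hpos i' ((hmem j i').1 hi').2.2.1).2
      rw [← h1, ← h2]
      exact congrArg π h
  · -- one block
    rw [card_le_one]
    have key : ∀ j j' : Fin (n + 1), j < j' → i ∈ I j → i ∈ I j' → False := by
      intro j j' hjj hj hj'
      have h1 := (hmem j i).1 hj
      have h2 := (hmem j' i).1 hj'
      have hjj' : (j : ℕ) < (j' : ℕ) := hjj
      have h3 : cut ((j' : ℕ) - 1) = true := h2.1 ((j' : ℕ) - 1) (by omega)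
      have h4 := h2.2.2.2.1
      exact h1.2.2.2.2 ((j' : ℕ) - 1) (by omega) (by omega) h3
    intro j hj j' hj'
    rw [mem_filter] at hj hj'
    by_contra hne
    rcases lt_or_gt_of_ne hne with h | h
    · exact key j j' h hj.2 hj'.2
    · exact key j' j h hj'.2 hj.2
  · -- dependence
    rw [hτ']
    refine funext fun β => ?_
    induction j using Fin.cases with
    | zero => exact hdep 0 (fun p hp => by simp at hp) x y hxy s
    | succ p =>
      show (if (p : ℕ) < q ∧ cut p = true then _ else _) =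
        (if (p : ℕ) < q ∧ cut p = true then _ else _)
      by_cases hc : (p : ℕ) < q ∧ cut p = true
      · rw [if_pos hc, if_pos hc]
        exact hdep p.succ (fun p' hp' => by
          have h1 : p' = (p : ℕ) := by simpa using hp'
          rw [h1]
          exact hc.2) x y hxy _
      · rw [if_neg hc, if_neg hc]
  · -- the value
    have h1 : g (fix S z x) = decide (σ x q ∈ A) := by
      have h2 := hgA (fix S z x)
      rw [hσ]
      show _ = decide (steps τ (fun t => fix S z x (π t)) 0 q s ∈ A)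
      cases h3 : g (fix S z x)
      · rw [h3] at h2
        symm
        rw [decide_eq_false_iff_not, ← h2]
        simp
      · rw [h3] at h2
        symm
        rw [decide_eq_true_eq]
        exact h2.1 rfl
    rw [h1]
    unfold run
    rw [List.finRange_succ, List.foldl_cons, List.foldl_map, hτ']
    have h3 := fold_of (fun (β : Bool) (p : Fin n) => if (p : ℕ) < q ∧ cut p = true then
        rg cut (F x) enc (fun s => decide (s ∈ A)) (q - ((p : ℕ) + 1)) ((p : ℕ) + 1)
          (dec p β) else β)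
      (fun v => rg cut (F x) enc (fun s => decide (s ∈ A)) (q - v) v (σ x (min v q))) ?_
    · show _ = (List.finRange n).foldl (fun (β : Bool) (p : Fin n) =>
        if (p : ℕ) < q ∧ cut p = true then
          rg cut (F x) enc (fun s => decide (s ∈ A)) (q - ((p : ℕ) + 1)) ((p : ℕ) + 1)
            (dec p β) else β) (rg cut (F x) enc (fun s => decide (s ∈ A)) q 0 s)
      have h4 : rg cut (F x) enc (fun s => decide (s ∈ A)) (q - 0) 0 (σ x (min 0 q)) =
          rg cut (F x) enc (fun s => decide (s ∈ A)) q 0 s := by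
        rw [Nat.zero_min, hσ]
        rfl
      rw [← h4, h3, Nat.sub_eq_zero_of_le hqn, min_eq_right hqn]
      rfl
    · intro p
      by_cases hp : (p : ℕ) < q
      · have h5 : q - (p : ℕ) = (q - ((p : ℕ) + 1)) + 1 := by omega
        rw [min_eq_left hp.le, min_eq_left (Nat.succ_le_of_lt hp), h5, hσs]
        show (if (p : ℕ) < q ∧ cut p = true then
            rg cut (F x) enc (fun s => decide (s ∈ A)) (q - ((p : ℕ) + 1)) ((p : ℕ) + 1)
              (dec p (if cut p = true then enc p (F x p (σ x p)) else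
                rg cut (F x) enc (fun s => decide (s ∈ A)) (q - ((p : ℕ) + 1)) ((p : ℕ) + 1)
                  (F x p (σ x p)))) else
            (if cut p = true then enc p (F x p (σ x p)) else
              rg cut (F x) enc (fun s => decide (s ∈ A)) (q - ((p : ℕ) + 1)) ((p : ℕ) + 1)
                (F x p (σ x p)))) = _
        by_cases hc : cut p = true
        · rw [if_pos ⟨hp, hc⟩, if_pos hc, ← hσs, hed x p hc]
        · rw [if_neg fun h => hc h.2, if_neg hc]
      · rw [if_neg fun h => hp h.1]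
        have h5 : q ≤ (p : ℕ) := not_lt.1 hp
        show rg cut (F x) enc (fun s => decide (s ∈ A)) (q - (p : ℕ)) p (σ x (min p q)) =
          rg cut (F x) enc (fun s => decide (s ∈ A)) (q - ((p : ℕ) + 1)) (p + 1)
            (σ x (min ((p : ℕ) + 1) q))
        rw [Nat.sub_eq_zero_of_le h5, Nat.sub_eq_zero_of_le (h5.trans (Nat.le_succ _)),
          min_eq_right h5, min_eq_right (h5.trans (Nat.le_succ _))]
        rfl

theorem wp2_red {N K m : ℕ} (hK : 1 ≤ K) {P : ((Fin n → Bool) → Bool) → Prop} (hP : Has2 N P)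
    (hN : 2 ^ (2 * ((m + 2) * K)) ≤ N) {f : (Fin n → Bool) → Bool} (hf : KTest K f) :
    RedG P K m (2 * (n + 1) ^ 2) f := by
  classical
  obtain ⟨g₁, g₂, F, h₁, h₂, hF⟩ := hf
  obtain ⟨J₁, a₁, b₁, c₁⟩ := wp2_one (m := m) hK h₁
  obtain ⟨J₂, a₂, b₂, c₂⟩ := wp2_one (m := m) hK h₂
  refine ⟨J₁ ∪ J₂, ?_, ?_, ?_⟩
  · have := card_union_le J₁ J₂
    omega
  · intro w hw
    rcases mem_union.1 hw with hw | hw
    · exact b₁ w hw
    · exact b₂ w hw
  · intro S z hS
    obtain ⟨I₁, τ₁, d₁, e₁, k₁, l₁⟩ := c₁ S z fun w hw => hS w (mem_union_left _ hw)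
    obtain ⟨I₂, τ₂, d₂, e₂, k₂, l₂⟩ := c₂ S z fun w hw => hS w (mem_union_right _ hw)
    refine hP (fun j => I₁ j ∪ I₂ j) τ₁ τ₂ F _ (fun j => ?_) (fun i => ?_)
      (fun j x y h => k₁ j x y fun i hi => h i (mem_union_left _ hi))
      (fun j x y h => k₂ j x y fun i hi => h i (mem_union_right _ hi)) fun x => ?_
    · refine (Nat.pow_le_pow_right (by norm_num) ?_).trans hN
      have := card_union_le (I₁ j) (I₂ j)
      have := d₁ j
      have := d₂ j
      omega
    · have h1 : (univ.filter fun j => i ∈ I₁ j ∪ I₂ j) =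
          (univ.filter fun j => i ∈ I₁ j) ∪ univ.filter fun j => i ∈ I₂ j := by
        ext j
        simp only [mem_filter, mem_univ, true_and, mem_union]
      rw [h1]
      have := card_union_le (univ.filter fun j => i ∈ I₁ j) (univ.filter fun j => i ∈ I₂ j)
      have := e₁ i
      have := e₂ i
      omega
    · show f (fix S z x) = _
      rw [hF, l₁, l₂]

end Pool.Agent.MP_ca1109_lc.Wd
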