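import Pool.Agent.MP_ca1109_lc.Wd.Test3
import Pool.Agent.MP_ca1109_lc.Wd.WP2

/-!
# Several programs which read the bits in one order: common values
-/

namespace Pool.Agent.MP_ca1109_lc.Wd

variable {n : ℕ}

/-- If for every program and every `K` consecutive steps there are values of their bits which lead it
to one of two states, then for every `k * K` consecutive steps there are values of their bits which
lead each of the `k` programs to one of two states. -/
theorem joint {K k q : ℕ} {Q : Fin k → Type} {τ : (i : Fin k) → ℕ → Bool → Q i → Q i}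
    (h : ∀ (i : Fin k) (a : ℕ), a + K ≤ q → ∃ (y : ℕ → Bool) (u v : Q i), ∀ s,
      steps (τ i) y a K s = u ∨ steps (τ i) y a K s = v) (a : ℕ) (ha : a + k * K ≤ q) :
    ∃ y : ℕ → Bool, ∀ i, ∃ u v : Q i, ∀ s,
      steps (τ i) y a (k * K) s = u ∨ steps (τ i) y a (k * K) s = v := by
  classical
  rcases Nat.eq_zero_or_pos K with hK | hK
  · subst hK
    refine ⟨fun _ => false, fun i => ?_⟩
    obtain ⟨y, u, v, h1⟩ := h i a (by simpa using ha)
    exact ⟨u, v, fun s => h1 s⟩
  have hi : ∀ i : Fin k, (i : ℕ) * K + K ≤ k * K := by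
    intro i
    have h1 : ((i : ℕ) + 1) * K ≤ k * K := Nat.mul_le_mul_right _ i.2
    rwa [Nat.succ_mul] at h1
  have hch : ∀ i : Fin k, ∃ (y : ℕ → Bool) (u v : Q i), ∀ s,
      steps (τ i) y (a + (i : ℕ) * K) K s = u ∨ steps (τ i) y (a + (i : ℕ) * K) K s = v :=
    fun i => h i (a + (i : ℕ) * K) (by have := hi i; omega)
  choose Y U V hYUV using hch
  refine ⟨fun t => if ht : (t - a) / K < k then Y ⟨(t - a) / K, ht⟩ t else false, fun i => ?_⟩
  obtain ⟨y, hy⟩ : ∃ y : ℕ → Bool, y = fun t =>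
      if ht : (t - a) / K < k then Y ⟨(t - a) / K, ht⟩ t else false := ⟨_, rfl⟩
  rw [← hy]
  obtain ⟨l, hl⟩ : ∃ l, k * K = (i : ℕ) * K + K + l := ⟨k * K - ((i : ℕ) * K + K), by
    have := hi i
    omega⟩
  refine ⟨steps (τ i) y (a + ((i : ℕ) * K + K)) l (U i),
    steps (τ i) y (a + ((i : ℕ) * K + K)) l (V i), fun s => ?_⟩
  have h1 : steps (τ i) y a (k * K) s = steps (τ i) y (a + ((i : ℕ) * K + K)) l
      (steps (τ i) y (a + (i : ℕ) * K) K (steps (τ i) y a ((i : ℕ) * K) s)) := by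
    rw [hl, steps_add, steps_add]
  have h2 : ∀ s', steps (τ i) y (a + (i : ℕ) * K) K s' =
      steps (τ i) (Y i) (a + (i : ℕ) * K) K s' := by
    intro s'
    refine steps_congr s' K fun t ht1 ht2 => ?_
    have h3 : (t - a) / K = (i : ℕ) :=
      Nat.div_eq_of_lt_le (by omega) (by rw [Nat.succ_mul]; omega)
    rw [hy]
    show (if ht : (t - a) / K < k then Y ⟨(t - a) / K, ht⟩ t else false) = Y i t
    have h4 : (t - a) / K < k := by rw [h3]; exact i.2
    rw [dif_pos h4]
    have h5 : (⟨(t - a) / K, h4⟩ : Fin k) = i := Fin.ext h3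
    rw [h5]
  rw [h1, h2]
  rcases hYUV i (steps (τ i) y a ((i : ℕ) * K) s) with h3 | h3
  · exact Or.inl (by rw [h3])
  · exact Or.inr (by rw [h3])

end Pool.Agent.MP_ca1109_lc.Wd
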