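import Pool.Agent.MP_ca1109_lc.Wd.Defs

/-!
# Row WH: the selection between two independent strings fools the functions with windows
-/

namespace Pool.Agent.MP_ca1109_lc.Wd

open Finset Pool.Agent.H66 Pool.Agent.MP_ca1109_lc.Mpg Pool.Agent.MP_ca1109_lc.Agp
  Pool.Agent.MP_ca1109_lc.Xp Pool.Agent.MP_ca1109_lc.Ov Pool.Agent.MP_ca1109_lc.Ovr
open Pool.Agent.MP_ca1109_lc.Dnf (Cube one Term)
open Pool.Agent.MP_ca1109_lc.Rf (pat)

variable {n : ℕ}

/-- The patterns of at most `m` bits have at most twice their probabilities. -/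
def PB (m : ℕ) {Ω : Type} [Fintype Ω] (X : Ω → Fin n → Bool) : Prop :=
  ∀ (L : Finset (Fin n)) (a : Fin n → Bool), L.card ≤ m →
    (avg fun ω => one (pat L a (X ω))) ≤ 2 * (1 / 2) ^ L.card

theorem wh_pb {P : ((Fin n → Bool) → Bool) → Prop} {m : ℕ} {ε₀ : ℝ} (h1 : ε₀ ≤ 1) {Ω : Type}
    [Fintype Ω] {X : Ω → Fin n → Bool} (hX : LWtr P m ε₀ X) : PB m X := by
  intro L a hL
  have h2 := (abs_le.1 (hX L a hL).1).2
  have h3 : ε₀ * (1 / 2 : ℝ) ^ L.card ≤ 1 * (1 / 2 : ℝ) ^ L.card :=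
    mul_le_mul_of_nonneg_right h1 (by positivity)
  linarith

theorem wh_pb_id (m : ℕ) : PB m fun x : Fin n → Bool => x := by
  intro L a _
  have h1 : (avg fun x : Fin n → Bool => one (pat L a x)) = (1 / 2) ^ L.card := aw_pat L a
  rw [h1]
  have h2 : (0 : ℝ) < (1 / 2) ^ L.card := by positivity
  linarith

/-- The probability that no bit of the window is chosen and has the value. -/
theorem wh_bad {Ω₁ Ω₂ : Type} [Fintype Ω₁] [Fintype Ω₂] {m : ℕ} {H : Ω₁ → Fin n → Bool}
    {A : Ω₂ → Fin n → Bool} (hH : PB m H) (hA : PB m A) {W : Finset (Fin n)} (hW : W.card ≤ m)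
    (v : Fin n → Bool) (β : Bool) :
    (avg fun p : Ω₁ × Ω₂ => one (∀ i ∈ W, ¬ (H p.1 i = β ∧ A p.2 i = v i))) ≤
      4 * (3 / 4) ^ W.card := by
  classical
  have h1 : ∀ p : Ω₁ × Ω₂, one (∀ i ∈ W, ¬ (H p.1 i = β ∧ A p.2 i = v i)) ≤
      ∑ T ∈ W.powerset, one (pat W (fun i => if i ∈ T then β else !β) (H p.1)) *
        one (pat T (fun i => !v i) (A p.2)) := by
    intro p
    by_cases h : ∀ i ∈ W, ¬ (H p.1 i = β ∧ A p.2 i = v i)
    · have hT : (W.filter fun i => H p.1 i = β) ∈ W.powerset := mem_powerset.2 (filter_subset _ _)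
      refine le_trans ?_ (single_le_sum (f := fun T => one (pat W (fun i => if i ∈ T then β else !β)
        (H p.1)) * one (pat T (fun i => !v i) (A p.2))) (fun T _ => mul_nonneg (Dnf.one_nonneg _)
          (Dnf.one_nonneg _)) hT)
      rw [Dnf.one_true h, Dnf.one_true, Dnf.one_true, mul_one]
      · intro i hi
        rw [mem_filter] at hi
        have h2 := h i hi.1
        have h3 : A p.2 i ≠ v i := fun h' => h2 ⟨hi.2, h'⟩
        show A p.2 i = !v i
        cases hx : A p.2 i <;> cases hy : v i <;> simp_all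
      · intro i hi
        show H p.1 i = if i ∈ W.filter fun i => H p.1 i = β then β else !β
        by_cases h2 : H p.1 i = β
        · rw [if_pos (mem_filter.2 ⟨hi, h2⟩), h2]
        · have h3 : i ∉ W.filter fun i => H p.1 i = β := fun h' => h2 (mem_filter.1 h').2
          rw [if_neg h3]
          cases hx : H p.1 i <;> cases hy : β <;> simp_all
    · rw [Dnf.one_false h]
      exact sum_nonneg fun T _ => mul_nonneg (Dnf.one_nonneg _) (Dnf.one_nonneg _)
  refine (avg_mono h1).trans ?_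
  rw [avg_sum W.powerset fun T (p : Ω₁ × Ω₂) =>
    one (pat W (fun i => if i ∈ T then β else !β) (H p.1)) * one (pat T (fun i => !v i) (A p.2))]
  have h2 : ∀ T ∈ W.powerset, (avg fun p : Ω₁ × Ω₂ =>
      one (pat W (fun i => if i ∈ T then β else !β) (H p.1)) * one (pat T (fun i => !v i) (A p.2))) ≤
      4 * (1 / 2) ^ W.card * ((1 / 2) ^ T.card * 1 ^ (W.card - T.card)) := by
    intro T hT
    rw [avg_prod_mul (fun h => one (pat W (fun i => if i ∈ T then β else !β) (H h)))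
      fun z => one (pat T (fun i => !v i) (A z))]
    have h3 := hH W (fun i => if i ∈ T then β else !β) hW
    have h4 := hA T (fun i => !v i) ((card_le_card (mem_powerset.1 hT)).trans hW)
    calc _ ≤ (2 * (1 / 2 : ℝ) ^ W.card) * (2 * (1 / 2) ^ T.card) :=
          mul_le_mul h3 h4 (avg_nonneg fun _ => Dnf.one_nonneg _) (by positivity)
      _ = _ := by
          rw [one_pow]
          ring
  refine (sum_le_sum h2).trans ?_
  rw [← mul_sum, sum_pow_mul_eq_add_pow, mul_assoc, ← mul_pow]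
  norm_num

/-- The chosen bits. -/
def Sβ (β : Bool) (η : Fin n → Bool) : Finset (Fin n) := univ.filter fun i => η i = β

theorem wh_mem {β : Bool} {η : Fin n → Bool} {i : Fin n} : i ∈ Sβ β η ↔ η i = β := by
  unfold Sβ
  rw [mem_filter]
  exact ⟨fun h => h.2, fun h => ⟨mem_univ _, h⟩⟩

theorem wh_pat (L S : Finset (Fin n)) (a z y : Fin n → Bool) :
    one (pat L a (fix S z y)) = one (pat (L ∩ S) a z) * one (pat (L \ S) a y) := by
  rw [← Dnf.one_and]
  congr 1
  refine propext ⟨fun h => ⟨fun i hi => ?_, fun i hi => ?_⟩, fun h i hi => ?_⟩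
  · rw [mem_inter] at hi
    have h1 := h i hi.1
    unfold fix at h1
    rwa [if_pos hi.2] at h1
  · rw [mem_sdiff] at hi
    have h1 := h i hi.1
    unfold fix at h1
    rwa [if_neg hi.2] at h1
  · show (if i ∈ S then z i else y i) = a i
    by_cases hS : i ∈ S
    · rw [if_pos hS]
      exact h.1 i (mem_inter.2 ⟨hi, hS⟩)
    · rw [if_neg hS]
      exact h.2 i (mem_sdiff.2 ⟨hi, hS⟩)

/-- One step of the hybrid argument. -/
theorem wh_step {P : ((Fin n → Bool) → Bool) → Prop} {m w M : ℕ} {ε₀ : ℝ} (h0 : 0 ≤ ε₀)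
    {Ω₁ Ω₂ Ω₃ : Type} [Fintype Ω₁] [Nonempty Ω₁] [Fintype Ω₂] [Nonempty Ω₂] [Fintype Ω₃]
    [Nonempty Ω₃] {H : Ω₁ → Fin n → Bool}
    {A : Ω₂ → Fin n → Bool} {B : Ω₃ → Fin n → Bool} (hH : PB m H) (hA : PB m A)
    (hB : LWtr P m ε₀ B) {f : (Fin n → Bool) → Bool} (hf : Red P w M f) (hw : w ≤ m)
    (L : Finset (Fin n)) (a : Fin n → Bool) (hL : L.card ≤ m) (β : Bool) :
    |(avg fun p : Ω₁ × Ω₂ => avg fun ω => one (pat L a (fix (Sβ β (H p.1)) (A p.2) (B ω))) *
        ind (f (fix (Sβ β (H p.1)) (A p.2) (B ω)))) -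
      avg fun p : Ω₁ × Ω₂ => avg fun x : Fin n → Bool =>
        one (pat L a (fix (Sβ β (H p.1)) (A p.2) x)) * ind (f (fix (Sβ β (H p.1)) (A p.2) x))| ≤
      2 * ε₀ * (1 / 2) ^ L.card + 4 * M * (3 / 4) ^ w := by
  classical
  obtain ⟨J, hJ, hJw, hred⟩ := hf
  -- the subwindows
  have hsub : ∀ u : J, ∃ T ⊆ u.1.1, T.card = w := fun u =>
    exists_subset_card_eq (hJw u.1 u.2)
  choose T hT1 hT2 using hsub
  have hpt : ∀ p : Ω₁ × Ω₂, |(avg fun ω => one (pat L a (fix (Sβ β (H p.1)) (A p.2) (B ω))) *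
        ind (f (fix (Sβ β (H p.1)) (A p.2) (B ω)))) -
      avg fun x : Fin n → Bool =>
        one (pat L a (fix (Sβ β (H p.1)) (A p.2) x)) * ind (f (fix (Sβ β (H p.1)) (A p.2) x))| ≤
      one (pat (L ∩ Sβ β (H p.1)) a (A p.2)) * (ε₀ * (1 / 2) ^ (L \ Sβ β (H p.1)).card) +
        ∑ u : J, one (∀ i ∈ T u, ¬ (H p.1 i = β ∧ A p.2 i = u.1.2 i)) := by
    intro p
    have hS0 : 0 ≤ ∑ u : J, one (∀ i ∈ T u, ¬ (H p.1 i = β ∧ A p.2 i = u.1.2 i)) :=
      sum_nonneg fun u _ => Dnf.one_nonneg _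
    by_cases hg : ∀ u ∈ J, ∃ i ∈ u.1, i ∈ Sβ β (H p.1) ∧ A p.2 i = u.2 i
    · have h1 := hred (Sβ β (H p.1)) (A p.2) hg
      have h2 := (hB (L \ Sβ β (H p.1)) a ((card_le_card sdiff_subset).trans hL)).2 _ h1
      have h3 : ∀ {D : Type} [Fintype D] (Y : D → Fin n → Bool),
          (avg fun d => one (pat L a (fix (Sβ β (H p.1)) (A p.2) (Y d))) *
            ind (f (fix (Sβ β (H p.1)) (A p.2) (Y d)))) =
          one (pat (L ∩ Sβ β (H p.1)) a (A p.2)) * avg fun d =>
            one (pat (L \ Sβ β (H p.1)) a (Y d)) * ind (f (fix (Sβ β (H p.1)) (A p.2) (Y d))) := by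
        intro D _ Y
        rw [← avg_mul_left]
        congr 1
        funext d
        rw [wh_pat, mul_assoc]
      rw [h3 B, h3 fun x : Fin n → Bool => x, ← mul_sub, abs_mul,
        abs_of_nonneg (Dnf.one_nonneg _)]
      have h4 := mul_le_mul_of_nonneg_left h2
        (Dnf.one_nonneg (pat (L ∩ Sβ β (H p.1)) a (A p.2)))
      linarith
    · push Not at hg
      obtain ⟨u, hu, hg⟩ := hg
      have h1 : one (∀ i ∈ T ⟨u, hu⟩, ¬ (H p.1 i = β ∧ A p.2 i = u.2 i)) = 1 := by
        refine Dnf.one_true fun i hi hcon => ?_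
        exact hg i (hT1 ⟨u, hu⟩ hi) (wh_mem.2 hcon.1) hcon.2
      have h2 : 1 ≤ ∑ u : J, one (∀ i ∈ T u, ¬ (H p.1 i = β ∧ A p.2 i = u.1.2 i)) := by
        rw [← h1]
        exact single_le_sum (f := fun u : J => one (∀ i ∈ T u, ¬ (H p.1 i = β ∧
          A p.2 i = u.1.2 i))) (fun u _ => Dnf.one_nonneg _) (mem_univ (⟨u, hu⟩ : J))
      have h3 : ∀ {D : Type} [Fintype D] [Nonempty D] (Y : D → Fin n → Bool),
          0 ≤ (avg fun d => one (pat L a (Y d)) * ind (f (Y d))) ∧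
          (avg fun d => one (pat L a (Y d)) * ind (f (Y d))) ≤ 1 := by
        intro D _ _ Y
        refine ⟨avg_nonneg fun d => mul_nonneg (Dnf.one_nonneg _) (ind_nonneg _),
          avg_le fun d => ?_⟩
        calc one (pat L a (Y d)) * ind (f (Y d)) ≤ 1 * 1 :=
              mul_le_mul (Dnf.one_le _) (ind_le_one _) (ind_nonneg _) (by norm_num)
          _ = 1 := one_mul 1
      have h4 := h3 fun ω => fix (Sβ β (H p.1)) (A p.2) (B ω)
      have h5 := h3 fun x : Fin n → Bool => fix (Sβ β (H p.1)) (A p.2) x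
      have h6 : 0 ≤ one (pat (L ∩ Sβ β (H p.1)) a (A p.2)) *
          (ε₀ * (1 / 2) ^ (L \ Sβ β (H p.1)).card) :=
        mul_nonneg (Dnf.one_nonneg _) (by positivity)
      rw [abs_le]
      constructor <;> linarith [h4.1, h4.2, h5.1, h5.2]
  rw [← avg_sub]
  have habs : ∀ g : Ω₁ × Ω₂ → ℝ, |avg g| ≤ avg fun p => |g p| := by
    intro g
    unfold avg
    rw [abs_div, Nat.abs_cast]
    exact div_le_div_of_nonneg_right (abs_sum_le_sum_abs _ _) (Nat.cast_nonneg _)
  refine (habs _).trans ((avg_mono hpt).trans ?_)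
  rw [avg_add]
  refine add_le_add ?_ ?_
  · rw [avg_prod fun h z => one (pat (L ∩ Sβ β (H h)) a (A z)) *
      (ε₀ * (1 / 2) ^ (L \ Sβ β (H h)).card)]
    refine avg_le fun h => ?_
    have h1 : (avg fun z => one (pat (L ∩ Sβ β (H h)) a (A z)) *
        (ε₀ * (1 / 2) ^ (L \ Sβ β (H h)).card)) =
        (ε₀ * (1 / 2) ^ (L \ Sβ β (H h)).card) *
          avg fun z => one (pat (L ∩ Sβ β (H h)) a (A z)) := by
      rw [← avg_mul_left]
      congr 1
      funext z
      ring
    rw [h1]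
    have h2 := hA (L ∩ Sβ β (H h)) a ((card_le_card inter_subset_left).trans hL)
    have h3 : (L ∩ Sβ β (H h)).card + (L \ Sβ β (H h)).card = L.card :=
      card_inter_add_card_sdiff L (Sβ β (H h))
    calc (ε₀ * (1 / 2) ^ (L \ Sβ β (H h)).card) *
          (avg fun z => one (pat (L ∩ Sβ β (H h)) a (A z)))
        ≤ (ε₀ * (1 / 2) ^ (L \ Sβ β (H h)).card) * (2 * (1 / 2) ^ (L ∩ Sβ β (H h)).card) :=
          mul_le_mul_of_nonneg_left h2 (by positivity)
      _ = 2 * ε₀ * (1 / 2) ^ L.card := by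
          rw [← h3, pow_add]
          ring
  · rw [avg_sum univ fun (u : J) (p : Ω₁ × Ω₂) =>
      one (∀ i ∈ T u, ¬ (H p.1 i = β ∧ A p.2 i = u.1.2 i))]
    have h1 : ∀ u ∈ (univ : Finset J), (avg fun p : Ω₁ × Ω₂ =>
        one (∀ i ∈ T u, ¬ (H p.1 i = β ∧ A p.2 i = u.1.2 i))) ≤ 4 * (3 / 4) ^ w := by
      intro u _
      have h2 := wh_bad hH hA (W := T u) (by rw [hT2]; exact hw) u.1.2 β
      rwa [hT2] at h2
    refine (sum_le_card_nsmul _ _ _ h1).trans ?_
    rw [card_univ, Fintype.card_coe, nsmul_eq_mul]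
    have h2 : (J.card : ℝ) ≤ M := by exact_mod_cast hJ
    calc (J.card : ℝ) * (4 * (3 / 4) ^ w) ≤ (M : ℝ) * (4 * (3 / 4) ^ w) :=
          mul_le_mul_of_nonneg_right h2 (by positivity)
      _ = _ := by ring

theorem wh_fix (S : Finset (Fin n)) (F : (Fin n → Bool) → ℝ) :
    (avg fun x : Fin n → Bool => avg fun y : Fin n → Bool => F (fix S x y)) = avg F := by
  have hinv : Function.Involutive fun p : (Fin n → Bool) × (Fin n → Bool) =>
      (fix S p.1 p.2, fix S p.2 p.1) := by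
    intro p
    refine Prod.ext ?_ ?_ <;>
    · funext i
      simp only [fix]
      split_ifs <;> rfl
  rw [← avg_prod fun x y => F (fix S x y)]
  have h1 := Pool.Agent.MP_ca1109_lc.avg_equiv hinv.toPerm
    fun p : (Fin n → Bool) × (Fin n → Bool) => F p.1
  rw [avg_fst] at h1
  exact h1

theorem wh_sel_true (η a b : Fin n → Bool) : sel η a b = fix (Sβ true η) a b := by
  funext i
  unfold sel fix
  by_cases h : η i = true
  · rw [if_pos h, if_pos (wh_mem.2 h)]
  · rw [if_neg h, if_neg fun h' => h (wh_mem.1 h')]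

theorem wh_sel_false (η a b : Fin n → Bool) : sel η a b = fix (Sβ false η) b a := by
  funext i
  unfold sel fix
  by_cases h : η i = true
  · rw [if_pos h, if_neg fun h' => ?_]
    have h2 := wh_mem.1 h'
    rw [h] at h2
    exact absurd h2 (by decide)
  · rw [if_neg h, if_pos (wh_mem.2 (by simpa using h))]

/-- **Row WH.** -/
theorem wh_hyb {P : ((Fin n → Bool) → Bool) → Prop} {m w M : ℕ} {ε₀ : ℝ} (h0 : 0 ≤ ε₀)
    (h1 : ε₀ ≤ 1) {Ω : Type} [Fintype Ω] [Nonempty Ω] {X : Ω → Fin n → Bool} (hX : LWtr P m ε₀ X)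
    {f : (Fin n → Bool) → Bool} (hf : Red P w M f) (hw : w ≤ m) (L : Finset (Fin n))
    (a : Fin n → Bool) (hL : L.card ≤ m) :
    |(avg fun q : Ω × Ω × Ω => one (pat L a (sel (X q.1) (X q.2.1) (X q.2.2))) *
        ind (f (sel (X q.1) (X q.2.1) (X q.2.2)))) -
      avg fun x : Fin n → Bool => one (pat L a x) * ind (f x)| ≤
      4 * ε₀ * (1 / 2) ^ L.card + 8 * M * (3 / 4) ^ w := by
  obtain ⟨F, hF⟩ : ∃ F : (Fin n → Bool) → ℝ, F = fun y => one (pat L a y) * ind (f y) := ⟨_, rfl⟩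
  have hpb := wh_pb h1 hX
  have s1 := wh_step h0 hpb hpb hX hf hw L a hL true
  have s2 := wh_step h0 hpb (wh_pb_id m) hX hf hw L a hL false
  have e1 : (avg fun q : Ω × Ω × Ω => one (pat L a (sel (X q.1) (X q.2.1) (X q.2.2))) *
        ind (f (sel (X q.1) (X q.2.1) (X q.2.2)))) =
      avg fun p : Ω × Ω => avg fun ω => one (pat L a (fix (Sβ true (X p.1)) (X p.2) (X ω))) *
        ind (f (fix (Sβ true (X p.1)) (X p.2) (X ω))) := by
    rw [avg_prod fun h (r : Ω × Ω) => one (pat L a (sel (X h) (X r.1) (X r.2))) *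
        ind (f (sel (X h) (X r.1) (X r.2))),
      avg_prod fun h z => avg fun ω => one (pat L a (fix (Sβ true (X h)) (X z) (X ω))) *
        ind (f (fix (Sβ true (X h)) (X z) (X ω)))]
    congr 1
    funext h
    rw [avg_prod fun z ω => one (pat L a (sel (X h) (X z) (X ω))) *
        ind (f (sel (X h) (X z) (X ω)))]
    simp only [wh_sel_true]
  have e2 : (avg fun p : Ω × Ω => avg fun x : Fin n → Bool =>
        one (pat L a (fix (Sβ true (X p.1)) (X p.2) x)) *
          ind (f (fix (Sβ true (X p.1)) (X p.2) x))) =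
      avg fun p : Ω × (Fin n → Bool) => avg fun ω =>
        one (pat L a (fix (Sβ false (X p.1)) p.2 (X ω))) *
          ind (f (fix (Sβ false (X p.1)) p.2 (X ω))) := by
    rw [avg_prod fun h z => avg fun x : Fin n → Bool =>
        one (pat L a (fix (Sβ true (X h)) (X z) x)) * ind (f (fix (Sβ true (X h)) (X z) x)),
      avg_prod fun h (z : Fin n → Bool) => avg fun ω =>
        one (pat L a (fix (Sβ false (X h)) z (X ω))) * ind (f (fix (Sβ false (X h)) z (X ω)))]
    congr 1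
    funext h
    rw [k2_avg_comm fun (z : Ω) (x : Fin n → Bool) =>
      one (pat L a (fix (Sβ true (X h)) (X z) x)) * ind (f (fix (Sβ true (X h)) (X z) x))]
    congr 1
    funext x
    congr 1
    funext z
    rw [← wh_sel_true, ← wh_sel_false]
  have e3 : (avg fun p : Ω × (Fin n → Bool) => avg fun x : Fin n → Bool =>
        one (pat L a (fix (Sβ false (X p.1)) p.2 x)) * ind (f (fix (Sβ false (X p.1)) p.2 x))) =
      avg fun x : Fin n → Bool => one (pat L a x) * ind (f x) := by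
    rw [avg_prod fun h (z : Fin n → Bool) => avg fun x : Fin n → Bool =>
        one (pat L a (fix (Sβ false (X h)) z x)) * ind (f (fix (Sβ false (X h)) z x))]
    have h2 : ∀ h : Ω, (avg fun z : Fin n → Bool => avg fun x : Fin n → Bool =>
        one (pat L a (fix (Sβ false (X h)) z x)) * ind (f (fix (Sβ false (X h)) z x))) =
        avg fun x : Fin n → Bool => one (pat L a x) * ind (f x) := fun h =>
      wh_fix (Sβ false (X h)) fun y => one (pat L a y) * ind (f y)
    simp only [h2]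
    exact avg_const _
  rw [e1]
  rw [e2] at s1
  rw [e3] at s2
  have h2 := abs_sub_le
    (avg fun p : Ω × Ω => avg fun ω => one (pat L a (fix (Sβ true (X p.1)) (X p.2) (X ω))) *
        ind (f (fix (Sβ true (X p.1)) (X p.2) (X ω))))
    (avg fun p : Ω × (Fin n → Bool) => avg fun ω =>
        one (pat L a (fix (Sβ false (X p.1)) p.2 (X ω))) *
          ind (f (fix (Sβ false (X p.1)) p.2 (X ω))))
    (avg fun x : Fin n → Bool => one (pat L a x) * ind (f x))
  linarith

end Pool.Agent.MP_ca1109_lc.Wd
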