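import Pool.Agent.MP_ca1109_lc.Wd.Defs

/-!
# The union of two classes: the sum of two independent strings
-/

namespace Pool.Agent.MP_ca1109_lc.Wd

open Finset Pool.Agent.H66 Pool.Agent.MP_ca1109_lc.Mpg Pool.Agent.MP_ca1109_lc.Agp
  Pool.Agent.MP_ca1109_lc.Ovr
open Pool.Agent.MP_ca1109_lc.Dnf (Cube one)
open Pool.Agent.MP_ca1109_lc.Rf (pat)
open Pool.Agent.MP_ca1109_lc.Xp (xo avg_xo)

variable {n : ℕ}

/-- Closed under shifts. -/
def XoC (P : (Cube n → Bool) → Prop) : Prop := ∀ f, P f → ∀ s : Cube n, P fun x => f (xo x s)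

theorem wu_comm (x y : Cube n) : xo x y = xo y x := funext fun _ => Bool.xor_comm _ _

theorem wu_pat (L : Finset (Fin n)) (a x s : Cube n) : pat L a (xo x s) ↔ pat L (xo a s) x := by
  unfold pat xo
  refine forall_congr' fun i => forall_congr' fun _ => ?_
  cases x i <;> cases s i <;> cases a i <;> simp

/-- One of the two strings is fixed. -/
theorem wu_fix {P : (Cube n → Bool) → Prop} (hP : XoC P) {W : ℕ} {ε : ℝ} {Ω : Type} [Fintype Ω]
    {X : Ω → Cube n} (hX : LWtr P W ε X) (s : Cube n) : LWtr P W ε fun ω => xo (X ω) s := by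
  intro L a hL
  obtain ⟨h1, h2⟩ := hX L (xo a s) hL
  simp only [wu_pat]
  refine ⟨h1, fun f hf => ?_⟩
  have h3 := h2 (fun x => f (xo x s)) (hP f hf s)
  have h4 : (avg fun x : Cube n => one (pat L (xo a s) x) * ind (f (xo x s))) =
      avg fun x : Cube n => one (pat L a x) * ind (f x) := by
    rw [← avg_xo (fun x : Cube n => one (pat L a x) * ind (f x)) s]
    congr 1
    funext x
    rw [wu_pat]
  rw [← h4]
  exact h3

theorem wu_avg {P : (Cube n → Bool) → Prop} {W : ℕ} {ε : ℝ} {Ω Ω' : Type} [Fintype Ω] [Fintype Ω']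
    [Nonempty Ω'] {X : Ω' → Ω → Cube n} (hX : ∀ ω', LWtr P W ε (X ω')) :
    LWtr P W ε fun q : Ω' × Ω => X q.1 q.2 := by
  intro L a hL
  have key : ∀ (F : Cube n → ℝ) (c b : ℝ), (∀ ω', |(avg fun ω => F (X ω' ω)) - c| ≤ b) →
      |(avg fun q : Ω' × Ω => F (X q.1 q.2)) - c| ≤ b := by
    intro F c b h
    rw [avg_prod fun ω' ω => F (X ω' ω)]
    rw [abs_le]
    constructor
    · have h1 : (avg fun _ : Ω' => c - b) ≤ avg fun ω' => avg fun ω => F (X ω' ω) :=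
        avg_mono fun ω' => by
          have := (abs_le.1 (h ω')).1
          linarith
      rw [avg_const] at h1
      linarith
    · have h1 : (avg fun ω' => avg fun ω => F (X ω' ω)) ≤ avg fun _ : Ω' => c + b :=
        avg_mono fun ω' => by
          have := (abs_le.1 (h ω')).2
          linarith
      rw [avg_const] at h1
      linarith
  exact ⟨key (fun x => one (pat L a x)) _ _ fun ω' => (hX ω' L a hL).1,
    fun f hf => key (fun x => one (pat L a x) * ind (f x)) _ _ fun ω' => (hX ω' L a hL).2 f hf⟩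

theorem wu_swap {P : (Cube n → Bool) → Prop} {W : ℕ} {ε : ℝ} {Ω Ω' : Type} [Fintype Ω] [Fintype Ω']
    {X : Ω' → Ω → Cube n} (hX : LWtr P W ε fun q : Ω' × Ω => X q.1 q.2) :
    LWtr P W ε fun q : Ω × Ω' => X q.2 q.1 := by
  have key : ∀ F : Cube n → ℝ, (avg fun q : Ω × Ω' => F (X q.2 q.1)) =
      avg fun q : Ω' × Ω => F (X q.1 q.2) := fun F =>
    avg_equiv (Equiv.prodComm Ω Ω') fun q : Ω' × Ω => F (X q.1 q.2)
  intro L a hL
  obtain ⟨h1, h2⟩ := hX L a hL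
  refine ⟨?_, fun f hf => ?_⟩
  · rw [key fun x => one (pat L a x)]
    exact h1
  · rw [key fun x => one (pat L a x) * ind (f x)]
    exact h2 f hf

theorem wu_or {P P' : (Cube n → Bool) → Prop} {W : ℕ} {ε : ℝ} {Ω : Type} [Fintype Ω]
    {X : Ω → Cube n} (h : LWtr P W ε X) (h' : LWtr P' W ε X) :
    LWtr (fun f => P f ∨ P' f) W ε X := fun L a hL =>
  ⟨(h L a hL).1, fun f hf => hf.elim ((h L a hL).2 f) ((h' L a hL).2 f)⟩

/-- The sum of two independent strings fools both classes. -/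
theorem wu_xo {P P' : (Cube n → Bool) → Prop} (hP : XoC P) (hP' : XoC P') {W : ℕ} {ε : ℝ}
    {Ω Ω' : Type} [Fintype Ω] [Fintype Ω'] [Nonempty Ω] [Nonempty Ω'] {X : Ω → Cube n}
    {X' : Ω' → Cube n} (h : LWtr P W ε X) (h' : LWtr P' W ε X') :
    LWtr (fun f => P f ∨ P' f) W ε fun q : Ω × Ω' => xo (X q.1) (X' q.2) := by
  refine wu_or ?_ ?_
  · exact wu_swap (X := fun ω' ω => xo (X ω) (X' ω'))
      (wu_avg (X := fun ω' ω => xo (X ω) (X' ω')) fun ω' => wu_fix hP h (X' ω'))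
  · refine wu_avg (X := fun ω ω' => xo (X ω) (X' ω')) fun ω => ?_
    have h1 := wu_fix hP' h' (X ω)
    simp only [wu_comm] at h1 ⊢
    exact h1

/-- Generators. -/
theorem wu_ng {P P' : ∀ n : ℕ, ((Fin n → Bool) → Bool) → Prop} (hP : ∀ n, XoC (P n))
    (hP' : ∀ n, XoC (P' n)) (e : ℕ) (ε : ℝ)
    (h : ∃ E G, NG E G ∧ ∃ n₀ : ℕ, ∀ n ≥ n₀,
      LWtr (P n) (e * Nat.clog 2 n) ε fun ω : Fin (2 ^ E n) => out G n ω)
    (h' : ∃ E G, NG E G ∧ ∃ n₀ : ℕ, ∀ n ≥ n₀,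
      LWtr (P' n) (e * Nat.clog 2 n) ε fun ω : Fin (2 ^ E n) => out G n ω) :
    ∃ E G, NG E G ∧ ∃ n₀ : ℕ, ∀ n ≥ n₀,
      LWtr (fun f => P n f ∨ P' n f) (e * Nat.clog 2 n) ε fun ω : Fin (2 ^ E n) => out G n ω := by
  obtain ⟨E₁, G₁, g₁, n₁, H₁⟩ := h
  obtain ⟨E₂, G₂, g₂, n₂, H₂⟩ := h'
  refine ⟨_, _, g₁.xor g₂, max n₁ n₂, fun n hn => ?_⟩
  have hN1 : Nonempty (Fin (2 ^ E₁ n)) := ⟨⟨0, by positivity⟩⟩
  have hN2 : Nonempty (Fin (2 ^ E₂ n)) := ⟨⟨0, by positivity⟩⟩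
  have hB : 0 < 2 ^ E₂ n := by positivity
  have h1 := wu_xo (hP n) (hP' n) (H₁ n ((le_max_left _ _).trans hn))
    (H₂ n ((le_max_right _ _).trans hn))
  have key : ∀ F : Cube n → ℝ, (avg fun p : Fin (2 ^ (E₁ n + E₂ n)) =>
      F (out (xorG E₂ G₁ G₂) n p)) = avg fun q : Fin (2 ^ E₁ n) × Fin (2 ^ E₂ n) =>
        F (xo (out G₁ n q.1) (out G₂ n q.2)) := by
    intro F
    let e0 : Fin (2 ^ E₁ n) × Fin (2 ^ E₂ n) ≃ Fin (2 ^ (E₁ n + E₂ n)) :=
      finProdFinEquiv.trans (finCongr (pow_add 2 (E₁ n) (E₂ n)).symm)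
    rw [← avg_equiv e0 fun p : Fin (2 ^ (E₁ n + E₂ n)) => F (out (xorG E₂ G₁ G₂) n p)]
    congr 1
    funext q
    have h2 : ((e0 q : Fin (2 ^ (E₁ n + E₂ n))) : ℕ) = (q.2 : ℕ) + 2 ^ E₂ n * (q.1 : ℕ) := rfl
    rw [h2]
    congr 1
    funext i
    show xor (G₁ n (((q.2 : ℕ) + 2 ^ E₂ n * (q.1 : ℕ)) / 2 ^ E₂ n) i)
      (G₂ n (((q.2 : ℕ) + 2 ^ E₂ n * (q.1 : ℕ)) % 2 ^ E₂ n) i) = xor (G₁ n q.1 i) (G₂ n q.2 i)
    rw [Nat.add_mul_div_left _ _ hB, Nat.div_eq_of_lt q.2.2, zero_add, Nat.add_mul_mod_self_left,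
      Nat.mod_eq_of_lt q.2.2]
  intro L a hL
  obtain ⟨h2, h3⟩ := h1 L a hL
  refine ⟨?_, fun f hf => ?_⟩
  · rw [key fun x => one (pat L a x)]
    exact h2
  · rw [key fun x => one (pat L a x) * ind (f x)]
    exact h3 f hf

end Pool.Agent.MP_ca1109_lc.Wd
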